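import Pool.Agent.Lib.MP_6bd702_percw.TipsB

/-!
# Part D in the face grid: boxes with arbitrary centres, exits, independence, first moments

`BR v r` is the set of faces of the box with centre `v` and radius `r`, `Rch v r e` the event that
the component of the unit edge `e` in this box reaches the boundary of the box.
-/

set_option autoImplicit false

namespace Pool.Agent.PercD

open Finset Pool.Agent.Perc

variable {ω ω' : Cfg} {v v' : ℤ × ℤ} {r r' : ℤ} {e e' a a' b : UE} {f : ℤ × ℤ}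

/-- The faces of the box with centre `v` and radius `r`. -/
noncomputable def BR (v : ℤ × ℤ) (r : ℤ) : Finset (ℤ × ℤ) :=
  RF (v.1 - r) (v.1 + r) (v.2 - r) (v.2 + r)

/-- The unit edge `a` has both ends in the box. -/
def InE (v : ℤ × ℤ) (r : ℤ) (a : UE) : Prop :=
  InR (v.1 - r) (v.1 + r) (v.2 - r) (v.2 + r) (ua a) ∧
    InR (v.1 - r) (v.1 + r) (v.2 - r) (v.2 + r) (ub a)

/-- The unit edge `a` is on the boundary of the box. -/
def BdR (v : ℤ × ℤ) (r : ℤ) (a : UE) : Prop := BdE (v.1 - r) (v.1 + r) (v.2 - r) (v.2 + r) a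

/-- The component of `e` in the box reaches the boundary of the box. -/
def Rch (v : ℤ × ℤ) (r : ℤ) (e : UE) : Set Cfg := {ω | ∃ a ∈ MM ω (BR v r) e, BdR v r a}

/-- The unit edges whose first end is in the box. -/
noncomputable def UB (v : ℤ × ℤ) (r : ℤ) : Finset UE :=
  (Icc (v.1 - r) (v.1 + r)) ×ˢ ((Icc (v.2 - r) (v.2 + r)) ×ˢ (univ : Finset Bool))

/-- The event that the component of some unit edge of the box of radius `d` reaches the boundary of
the box of radius `w`. -/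
def Pev (v : ℤ × ℤ) (d w : ℤ) : Set Cfg := {ω | ∃ e, InE v d e ∧ ω ∈ Rch v w e}

/-- The event that a component crosses the annulus between the boxes of radius `d` and `w`. -/
def Xev (v : ℤ × ℤ) (d w : ℤ) : Set Cfg :=
  {ω | ∃ b, BdR v d b ∧ ∃ a ∈ MM ω (BR v w \ BR v d : Finset (ℤ × ℤ)) b, BdR v w a}

/-- The event that some unit edge of the box of radius `d` has a component which is long but has
few unit edges. -/
def Bad (v : ℤ × ℤ) (d : ℤ) (m : ℝ) : Set Cfg :=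
  {ω | ∃ e, InE v d e ∧ ω ∈ Rch (ua e) d e ∧ ((MM ω (BR (ua e) d) e).ncard : ℝ) ≤ m}

/-! ### Geometry -/

theorem mem_BR : f ∈ BR v r ↔ v.1 - r ≤ f.1 ∧ f.1 < v.1 + r ∧ v.2 - r ≤ f.2 ∧ f.2 < v.2 + r := by
  unfold BR
  exact mem_RF

theorem mem_BR' : f ∈ (BR v r : Set (ℤ × ℤ)) ↔
    v.1 - r ≤ f.1 ∧ f.1 < v.1 + r ∧ v.2 - r ≤ f.2 ∧ f.2 < v.2 + r := by
  rw [mem_coe, mem_BR]

theorem InE_iff : InE v r a ↔ InR (v.1 - r) (v.1 + r) (v.2 - r) (v.2 + r) (ua a) ∧
    InR (v.1 - r) (v.1 + r) (v.2 - r) (v.2 + r) (ub a) := Iff.rfl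

theorem inE_of_side (hf : f ∈ (BR v r : Set (ℤ × ℤ))) (hs : IsSide f a) : InE v r a :=
  ⟨IsCor.inR hf hs.cor.1, IsCor.inR hf hs.cor.2⟩

theorem MM_inE (he : InE v r e) (ha : a ∈ MM ω (BR v r) e) : InE v r a := by
  induction ha with
  | refl => exact he
  | tail _ hs _ =>
    obtain ⟨f, hf, hm⟩ := hs
    exact inE_of_side hf hm.right

theorem BdR.inE (hr : 0 ≤ r) (h : BdR v r a) : InE v r a := by
  obtain ⟨x, y, c⟩ := a
  unfold BdR BdE at h
  unfold InE InR
  cases c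
  · rw [ua_mk, ub_false]
    simp at h ⊢
    omega
  · rw [ua_mk, ub_true]
    simp at h ⊢
    omega

/-- A unit edge in the closed box which is a side of a face outside the box is on the boundary. -/
theorem bd_of_side (ha : InE v r a) (hs : IsSide f a) (hf : f ∉ (BR v r : Set (ℤ × ℤ))) :
    BdR v r a := by
  rw [mem_BR'] at hf
  obtain ⟨x, y⟩ := f
  unfold InE InR at ha
  unfold BdR BdE
  rcases hs with rfl | rfl | rfl | rfl
  · simp only [bo, ua_mk, ub_false] at ha ⊢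
    simp at hf ⊢
    omega
  · simp only [le', ua_mk, ub_true] at ha ⊢
    simp at hf ⊢
    omega
  · simp only [to', ua_mk, ub_false] at ha ⊢
    simp at hf ⊢
    omega
  · simp only [ri, ua_mk, ub_true] at ha ⊢
    simp at hf ⊢
    omega

/-- A small box in a big box. -/
def Sub (v' : ℤ × ℤ) (r' : ℤ) (v : ℤ × ℤ) (r : ℤ) : Prop :=
  v.1 - r ≤ v'.1 - r' ∧ v'.1 + r' ≤ v.1 + r ∧ v.2 - r ≤ v'.2 - r' ∧ v'.2 + r' ≤ v.2 + r

theorem Sub.subset (h : Sub v' r' v r) : BR v' r' ⊆ BR v r := by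
  intro f hf
  rw [mem_BR] at hf ⊢
  unfold Sub at h
  omega

theorem Sub.inE (h : Sub v' r' v r) (ha : InE v' r' a) : InE v r a := by
  unfold Sub at h
  unfold InE InR at ha ⊢
  omega

theorem Sub.refl' (h : r' ≤ r) : Sub v r' v r := by
  unfold Sub
  omega

/-! ### Components -/

theorem MM_trans {F : Set (ℤ × ℤ)} (h : a ∈ MM ω F e) (h' : b ∈ MM ω F a) : b ∈ MM ω F e :=
  Relation.ReflTransGen.trans h h'

theorem MM_symm {F : Set (ℤ × ℤ)} (h : a ∈ MM ω F e) : e ∈ MM ω F a := by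
  induction h with
  | refl => exact mem_MM_self
  | tail _ hs ih =>
    obtain ⟨f, hf, hm⟩ := hs
    exact MM_trans (Relation.ReflTransGen.single ⟨f, hf, hm.symm⟩) ih

theorem MM_eq {F : Set (ℤ × ℤ)} (h : a ∈ MM ω F e) : MM ω F a = MM ω F e :=
  Set.Subset.antisymm (fun _ hb => MM_trans h hb) fun _ hb => MM_trans (MM_symm h) hb

theorem Rch_iff (h : a ∈ MM ω (BR v r) e) : ω ∈ Rch v r a ↔ ω ∈ Rch v r e := by
  unfold Rch
  rw [Set.mem_ofPred_eq, Set.mem_ofPred_eq, MM_eq h]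

theorem MM_congr' {F : Set (ℤ × ℤ)} (h : ∀ f ∈ F, ω f = ω' f) : MM ω' F e = MM ω F e :=
  MM_congr fun f hf => h f hf.1

theorem Mt.congr {x x' : UE} (h : ω f = ω' f) (hm : Mt ω f x x') : Mt ω' f x x' := by
  unfold Mt at *
  rw [← h]
  exact hm

/-- First exit from a smaller box. -/
theorem first_exit (he : InE v' r' e) (ha : a ∈ MM ω (BR v r) e) :
    a ∈ MM ω (BR v' r') e ∨ ∃ b ∈ MM ω (BR v' r') e, BdR v' r' b := by
  induction ha with
  | refl => exact Or.inl mem_MM_self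
  | tail _ hs ih =>
    obtain ⟨f, hf, hm⟩ := hs
    rcases ih with ih | ih
    · by_cases hf' : f ∈ (BR v' r' : Set (ℤ × ℤ))
      · exact Or.inl (MM_step hf' hm ih)
      · exact Or.inr ⟨_, ih, bd_of_side (MM_inE he ih) hm.left hf'⟩
    · exact Or.inr ih

theorem bdR_of_sub (h : Sub v' r' v r) (ha : InE v' r' a) (hb : BdR v r a) : BdR v' r' a := by
  obtain ⟨x, y, c⟩ := a
  unfold Sub at h
  unfold BdR BdE at hb ⊢
  unfold InE InR at ha
  cases c
  · rw [ua_mk, ub_false] at ha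
    simp at hb ha ⊢
    omega
  · rw [ua_mk, ub_true] at ha
    simp at hb ha ⊢
    omega

/-- If the component reaches the boundary of the big box, it reaches that of the smaller one. -/
theorem Rch_sub (h : Sub v' r' v r) (he : InE v' r' e) (hω : ω ∈ Rch v r e) :
    ω ∈ Rch v' r' e := by
  obtain ⟨a, ha, hb⟩ := hω
  rcases first_exit he ha with h1 | h1
  · exact ⟨a, h1, bdR_of_sub h (MM_inE he h1) hb⟩
  · exact h1

/-- Last exit from a smaller box. -/
theorem last_exit (he : InE v' r' e) (ha : a ∈ MM ω (BR v r) e) :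
    InE v' r' a ∨ ∃ b ∈ MM ω (BR v r) e, BdR v' r' b ∧
      a ∈ MM ω (BR v r \ BR v' r' : Finset (ℤ × ℤ)) b := by
  induction ha with
  | refl => exact Or.inl he
  | tail hab hs ih =>
    obtain ⟨f, hf, hm⟩ := hs
    by_cases hf' : f ∈ (BR v' r' : Set (ℤ × ℤ))
    · exact Or.inl (inE_of_side hf' hm.right)
    · have hf2 : f ∈ ((BR v r \ BR v' r' : Finset (ℤ × ℤ)) : Set (ℤ × ℤ)) := by
        rw [mem_coe, mem_sdiff]
        exact ⟨mem_coe.1 hf, fun h => hf' (mem_coe.2 h)⟩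
      right
      rcases ih with ih | ⟨b, hb1, hb2, hb3⟩
      · exact ⟨_, hab, bd_of_side ih hm.left hf', Relation.ReflTransGen.single ⟨f, hf2, hm⟩⟩
      · exact ⟨b, hb1, hb2, MM_step hf2 hm hb3⟩

theorem MM_sub {F F' : Set (ℤ × ℤ)} (h : F ⊆ F') : MM ω F e ⊆ MM ω F' e :=
  fun _ ha => MM_mono h ha

/-! ### Finiteness and counting -/

theorem mem_UB : a ∈ UB v r ↔ InR (v.1 - r) (v.1 + r) (v.2 - r) (v.2 + r) (ua a) := by
  unfold UB InR ua
  rw [mem_product, mem_product, mem_Icc, mem_Icc]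
  simp only [mem_univ, and_true]
  tauto

theorem InE.mem_UB (h : InE v r a) : a ∈ UB v r := PercD.mem_UB.2 h.1

theorem card_UB (v : ℤ × ℤ) (n : ℕ) : (UB v n).card = 2 * (2 * n + 1) ^ 2 := by
  unfold UB
  rw [card_product, card_product, Int.card_Icc, Int.card_Icc, card_univ, Fintype.card_bool]
  have h1 : (v.1 + n + 1 - (v.1 - n)).toNat = 2 * n + 1 := by omega
  have h2 : (v.2 + n + 1 - (v.2 - n)).toNat = 2 * n + 1 := by omega
  rw [h1, h2]
  ring

theorem MM_finite (he : InE v r e) : (MM ω (BR v r) e).Finite :=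
  (UB v r).finite_toSet.subset fun _ ha => mem_coe.2 (MM_inE he ha).mem_UB

theorem MM_finite' (n : ℕ) : (MM ω (BR (ua e) n) e).Finite := by
  refine (insert e (UB (ua e) n)).finite_toSet.subset fun a ha => ?_
  rw [mem_coe, mem_insert]
  rcases Relation.ReflTransGen.cases_tail ha with h | ⟨c, -, f, hf, hm⟩
  · exact Or.inl h
  · exact Or.inr (inE_of_side hf hm.right).mem_UB

theorem one_le_ncard (n : ℕ) : 1 ≤ (MM ω (BR (ua e) n) e).ncard := by
  exact (Set.ncard_pos (MM_finite' n)).2 ⟨e, mem_MM_self⟩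

/-! ### Probability -/

open Classical in
/-- The first moment bound for the number of occurring events. -/
theorem pr_count_le {ι : Type} (W : Finset (ℤ × ℤ)) (I : Finset ι) (A : ι → Set Cfg) {t : ℝ}
    (ht : 0 < t) :
    pr W {ω | t ≤ ((I.filter fun i => ω ∈ A i).card : ℝ)} ≤ (∑ i ∈ I, pr W (A i)) / t := by
  rw [le_div_iff₀ ht]
  have h1 : ∑ i ∈ I, pr W (A i) =
      (∑ T ∈ W.powerset, ((I.filter fun i => cfg T ∈ A i).card : ℝ)) / 2 ^ W.card := by
    simp_rw [ProbA.pr_eq_sum]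
    rw [← sum_div, sum_comm]
    congr 1
    refine sum_congr rfl fun T _ => ?_
    rw [card_filter]
    push_cast
    rfl
  rw [h1, ProbA.pr_eq_sum, div_mul_eq_mul_div, sum_mul]
  refine div_le_div_of_nonneg_right (sum_le_sum fun T _ => ?_) (by positivity)
  by_cases h : cfg T ∈ {ω | t ≤ ((I.filter fun i => ω ∈ A i).card : ℝ)}
  · rw [if_pos h, one_mul]
    exact h
  · rw [if_neg h, zero_mul]
    positivity

/-- The union bound. -/
theorem pr_biUnion_le {ι : Type} (W : Finset (ℤ × ℤ)) (I : Finset ι) (A : ι → Set Cfg) :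
    pr W (⋃ i ∈ I, A i) ≤ ∑ i ∈ I, pr W (A i) := by
  classical
  induction I using Finset.induction_on with
  | empty =>
    simp only [notMem_empty, Set.iUnion_of_empty, Set.iUnion_empty, sum_empty]
    rw [ProbA.pr_eq_sum]
    simp
  | insert i I hi ih =>
    rw [sum_insert hi, set_biUnion_insert]
    exact (pr_union_le W _ _).trans (add_le_add le_rfl ih)

/-- Independence in a bigger window. -/
theorem pr_indep {W S S' : Finset (ℤ × ℤ)} {A B : Set Cfg} (hA : DepOn S A) (hB : DepOn S' B)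
    (hd : Disjoint S S') (h : S ⊆ W) (h' : S' ⊆ W) : pr W (A ∩ B) = pr S A * pr S' B := by
  rw [← pr_inter_of_disjoint hA hB hd]
  refine pr_eq_of_depOn ?_ (union_subset h h')
  intro ω ω' hω
  have h1 := hA ω ω' fun f hf => hω f (mem_coe.2 (mem_union_left _ (mem_coe.1 hf)))
  have h2 := hB ω ω' fun f hf => hω f (mem_coe.2 (mem_union_right _ (mem_coe.1 hf)))
  rw [Set.mem_inter_iff, Set.mem_inter_iff, h1, h2]

theorem depOn_Rch (v : ℤ × ℤ) (r : ℤ) (e : UE) : DepOn (BR v r) (Rch v r e) := by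
  intro ω ω' h
  unfold Rch
  rw [Set.mem_ofPred_eq, Set.mem_ofPred_eq, MM_congr' (ω := ω) (ω' := ω') h]

theorem depOn_Pev (v : ℤ × ℤ) (d w : ℤ) : DepOn (BR v w) (Pev v d w) := by
  intro ω ω' h
  unfold Pev
  rw [Set.mem_ofPred_eq, Set.mem_ofPred_eq]
  exact exists_congr fun e => and_congr_right fun _ => depOn_Rch v w e ω ω' h

theorem depOn_Xev (v : ℤ × ℤ) (d w : ℤ) :
    DepOn (BR v w \ BR v d : Finset (ℤ × ℤ)) (Xev v d w) := by
  intro ω ω' h
  unfold Xev
  rw [Set.mem_ofPred_eq, Set.mem_ofPred_eq]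
  refine exists_congr fun b => and_congr_right fun _ => ?_
  rw [MM_congr' (ω := ω) (ω' := ω') h]

theorem depOn_mono {S S' : Set (ℤ × ℤ)} {A : Set Cfg} (h : S ⊆ S') (hA : DepOn S A) :
    DepOn S' A := fun ω ω' hω => hA ω ω' fun f hf => hω f (h hf)

theorem sub_two (he : InE v r e) : Sub (ua e) r v (2 * r) := by
  unfold InE InR at he
  unfold Sub
  omega

theorem depOn_Bad (v : ℤ × ℤ) (d : ℤ) (m : ℝ) : DepOn (BR v (2 * d)) (Bad v d m) := by
  intro ω ω' h
  unfold Bad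
  rw [Set.mem_ofPred_eq, Set.mem_ofPred_eq]
  refine exists_congr fun e => and_congr_right fun he => ?_
  have hsub := (sub_two he).subset
  have h1 : ∀ f ∈ (BR (ua e) d : Set (ℤ × ℤ)), ω f = ω' f := fun f hf =>
    h f (mem_coe.2 (hsub (mem_coe.1 hf)))
  rw [depOn_Rch (ua e) d e ω ω' h1, MM_congr' (ω := ω) (ω' := ω') h1]

/-- Crossing an annulus from a unit edge inside. -/
theorem Xev_of_Rch {d w : ℤ} (he : InE v d e) (h : ω ∈ Rch v w e) (hdw : d ≤ w) :
    ω ∈ Xev v d w := by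
  obtain ⟨a, ha, hb⟩ := h
  rcases last_exit he ha with h1 | ⟨b, -, hb2, hb3⟩
  · exact ⟨a, bdR_of_sub (Sub.refl' hdw) h1 hb, a, mem_MM_self, hb⟩
  · exact ⟨b, hb2, a, hb3, hb⟩

theorem Xev_sub_Pev {d w : ℤ} (hd : 0 ≤ d) : Xev v d w ⊆ Pev v d w := by
  rintro ω ⟨b, hb, a, ha, hab⟩
  refine ⟨b, hb.inE hd, a, MM_mono ?_ ha, hab⟩
  intro f hf
  rw [mem_coe, mem_sdiff] at hf
  exact mem_coe.2 hf.1

/-! ### Hypotheses of the part D -/

/-- The upper bound for two arms. -/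
def UpperHyp : Prop := ∃ C : ℝ, 0 < C ∧ ∀ (e : UE) (r : ℕ), 1 ≤ r →
  pr (BR (ua e) r) (Rch (ua e) r e) ≤ C * (r : ℝ) ^ (-(1 / 4 : ℝ))

/-- The lower tail of the number of unit edges of a long component. -/
def TailHyp : Prop := ∃ (c q : ℝ) (A : ℕ), 0 < c ∧ 0 < q ∧ q < 1 ∧ ∀ (e : UE) (r s K : ℕ),
  1 ≤ s → A * s ≤ r →
    pr (BR (ua e) ((r + K * s : ℕ) : ℤ)) {ω | ω ∈ Rch (ua e) ((r + K * s : ℕ) : ℤ) e ∧
      ((MM ω (BR (ua e) ((r + K * s : ℕ) : ℤ)) e).ncard : ℝ) < c * (s : ℝ) ^ (7 / 4 : ℝ)} ≤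
    q ^ K * pr (BR (ua e) r) (Rch (ua e) r e)

end Pool.Agent.PercD
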