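import Pool.Agent.Lib.MP_6bd702_percw.Diam

/-!
# Macroscopic estimates: thin layers and the largest diameter
-/

set_option autoImplicit false

namespace Pool.Agent.PercD

open Finset Filter Topology Pool.Agent.MP_6bd702 Pool.Agent.MP_6bd702.H23 Pool.Agent.Perc
open Pool.Agent.PercW

theorem layX_mono {n w w' E E' : ℤ} (hw : w ≤ w') (hE : E' ≤ E) : LayX n w E ⊆ LayX n w' E' := by
  have hs : Lay n w ⊆ Lay n w' := by
    intro v hv
    rw [mem_Lay] at hv ⊢
    refine ⟨hv.1, fun h => hv.2 ?_⟩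
    omega
  rintro ω ⟨u, v, hu, hc, hd⟩
  exact ⟨u, v, hs hu, hc.mono le_rfl hs, by omega⟩

theorem pr_biUnion_le' (W : Finset Ed) {b : ℝ} (s : Finset ℕ) (A : ℕ → Set (Set Ed))
    (hA : ∀ i ∈ s, pr W (A i) ≤ b) : pr W {ω | ∃ i ∈ s, ω ∈ A i} ≤ s.card * b := by
  induction s using Finset.induction_on with
  | empty =>
    simp only [notMem_empty, false_and, exists_false, card_empty, Nat.cast_zero, zero_mul]
    refine le_of_eq ?_
    unfold pr
    change Pr {s | False} = 0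
    have : ({s : Finset W | False} : Set _) = ∅ := by ext; simp
    rw [this]
    unfold Pr Ex
    simp
  | insert i s hi ih =>
    have h2 : {ω : Set Ed | ∃ j ∈ insert i s, ω ∈ A j} ⊆ A i ∪ {ω | ∃ j ∈ s, ω ∈ A j} := by
      rintro ω ⟨j, hj, hω⟩
      rcases Finset.mem_insert.1 hj with h3 | h3
      · left; rw [← h3]; exact hω
      · right; exact ⟨j, h3, hω⟩
    refine (pr_mono h2).trans ((pr_union_le _ _ _).trans ?_)
    rw [card_insert_of_notMem hi]
    push_cast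
    have h3 := hA i (mem_insert_self i s)
    have h4 := ih fun j hj => hA j (mem_insert_of_mem hj)
    linarith

/-- A wide connection in a layer, with a constant number of columns. -/
theorem pr_layX_le' : ∃ q : ℝ, 0 ≤ q ∧ q < 1 ∧ ∀ (k n M : ℕ) (w l : ℤ), 1 ≤ w → w ≤ l →
    2 * w ≤ n → k * (w + 3) ≤ l + 1 → (n : ℤ) < M * l →
    pr (EW 0 n 0 n) (LayX n w (4 * l)) ≤ M * (2 * q ^ k) := by
  obtain ⟨q, hq0, hq1, h⟩ := hp_le
  refine ⟨q, hq0, hq1, fun k n M w l hw hl hn hk hM => ?_⟩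
  have h0 : {ω : Set Ed | ω ∈ LayX n w (4 * l)} ⊆ {ω | ∃ i ∈ range M, ω ∈ {ω : Set Ed |
      (w ≤ (i : ℤ) * l ∧ ((i : ℤ) + 1) * l ≤ n - w) ∧
        (HC ((i : ℤ) * l) (((i : ℤ) + 1) * l) 0 (w - 1) ω ∨
          HC ((i : ℤ) * l) (((i : ℤ) + 1) * l) (n - w + 1) n ω)}} := by
    intro ω hω
    obtain ⟨i, -, h2, h3⟩ := layX_sub (by omega) hl (by omega) hn hω
    refine ⟨i, ?_, h2, h3⟩
    rw [mem_range]
    by_contra h4
    push Not at h4
    have h5 : (M : ℤ) * l ≤ i * l := mul_le_mul_of_nonneg_right (by exact_mod_cast h4) (by omega)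
    have h6 : ((i : ℤ) + 1) * l = i * l + l := by ring
    omega
  refine (pr_mono h0).trans ((pr_biUnion_le' _ (range M) _ (b := 2 * q ^ k) ?_).trans ?_)
  · intro i _
    by_cases hi : w ≤ (i : ℤ) * l ∧ ((i : ℤ) + 1) * l ≤ n - w
    · have e1 : ((i : ℤ) + 1) * l - i * l = l := by ring
      refine le_trans (pr_mono (B := {ω | HC ((i : ℤ) * l) (((i : ℤ) + 1) * l) 0 (w - 1) ω} ∪
        {ω | HC ((i : ℤ) * l) (((i : ℤ) + 1) * l) (n - w + 1) n ω}) ?_) ((pr_union_le _ _ _).trans ?_)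
      · rintro ω ⟨_, h2 | h2⟩
        · exact Or.inl h2
        · exact Or.inr h2
      · rw [pr_hc_window (EW_sub (by omega) (by omega) (by omega) (by omega)),
          pr_hc_window (EW_sub (by omega) (by omega) (by omega) (by omega)), e1]
        have h2 := h k l (w - 1 - 0) (by omega) (by
          rw [show w - 1 - 0 + 4 = w + 3 by ring]; exact hk)
        have h3 := h k l (n - (n - w + 1)) (by omega) (by
          rw [show (n : ℤ) - (n - w + 1) + 4 = w + 3 by ring]; exact hk)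
        linarith
    · have h2 : {ω : Set Ed | (w ≤ (i : ℤ) * l ∧ ((i : ℤ) + 1) * l ≤ n - w) ∧
          (HC ((i : ℤ) * l) (((i : ℤ) + 1) * l) 0 (w - 1) ω ∨
            HC ((i : ℤ) * l) (((i : ℤ) + 1) * l) (n - w + 1) n ω)} ⊆ ∅ := by
        rintro ω ⟨h3, -⟩
        exact hi h3
      refine (pr_mono h2).trans ?_
      have h3 := pr_compl (EW 0 (n : ℤ) 0 n) Set.univ
      rw [Set.compl_univ, pr_univ] at h3
      rw [h3]
      have : 0 ≤ q ^ k := by positivity
      linarith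
  · rw [card_range]

theorem lay_small (a ε : ℝ) (ha : 0 < a) (hε : 0 < ε) : ∃ κ : ℝ, 0 < κ ∧
    ∀ᶠ n : ℕ in atTop, ∀ w E : ℤ, (w : ℝ) ≤ κ * n → a * n ≤ (E : ℝ) →
      prB n {T | (T : Set Ed) ∈ LayX n w E ∨ (T : Set Ed) ∈ LayY n w E} ≤ ε := by
  -- we may decrease `a`
  wlog ha1 : a ≤ 1 generalizing a
  · obtain ⟨κ, hκ, h⟩ := this 1 one_pos le_rfl
    refine ⟨κ, hκ, h.mono fun n hn w E hw hE => hn w E hw ?_⟩
    push Not at ha1
    have : (0 : ℝ) ≤ n := n.cast_nonneg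
    nlinarith
  obtain ⟨q, hq0, hq1, hmain⟩ := pr_layX_le'
  obtain ⟨M, hM⟩ := exists_nat_gt (8 / a)
  have hM0 : (0 : ℝ) < M := lt_trans (by positivity) hM
  obtain ⟨k₀, hk₀⟩ := exists_pow_lt_of_lt_one (show 0 < ε / (4 * M) by positivity) hq1
  set k := k₀ + 1 with hk
  have hk1 : (1 : ℝ) ≤ k := by rw [hk]; push_cast; linarith [(k₀ : ℕ).cast_nonneg (α := ℝ)]
  have hqk : q ^ k ≤ ε / (4 * M) := by
    rw [hk, pow_succ]
    have := pow_nonneg hq0 k₀
    nlinarith
  refine ⟨a / (8 * k), by positivity, ?_⟩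
  filter_upwards [eventually_ge_atTop ⌈64 * k / a⌉₊] with n hn w E hw hE
  have hn' : 64 * k / a ≤ n := (Nat.le_ceil _).trans (by exact_mod_cast hn)
  rw [div_le_iff₀ ha] at hn'
  have hn0 : (0 : ℝ) ≤ n := n.cast_nonneg
  -- the parameters
  set W : ℤ := max 1 ⌊a / (8 * k) * n⌋ with hW
  set l : ℤ := ⌊a * n / 4⌋ with hl
  have hW1 : 1 ≤ W := le_max_left _ _
  have hWw : w ≤ W := by
    refine le_trans ?_ (le_max_right _ _)
    exact Int.le_floor.2 hw
  have hWr : (W : ℝ) ≤ a / (8 * k) * n + 1 := by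
    rw [hW, Int.cast_max, Int.cast_one]
    refine max_le ?_ ?_
    · have : 0 ≤ a / (8 * k) * n := by positivity
      linarith
    · have := Int.floor_le (a / (8 * k) * n)
      linarith
  have hl1 : (l : ℝ) ≤ a * n / 4 := Int.floor_le _
  have hl2 : a * n / 4 < l + 1 := Int.lt_floor_add_one _
  have hkW : (k : ℝ) * (a / (8 * k) * n) = a * n / 8 := by field_simp
  have hkW2 : (k : ℝ) * (W + 3) ≤ a * n / 8 + 4 * k := by
    have := mul_le_mul_of_nonneg_left hWr (show (0 : ℝ) ≤ k by linarith)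
    rw [mul_add, hkW] at this
    rw [mul_add]
    linarith
  have c1 : (k : ℤ) * (W + 3) ≤ l + 1 := by
    have : ((k : ℤ) * (W + 3) : ℤ) < ((l + 1 + 1 : ℤ) : ℝ) := by
      push_cast
      linarith
    have := Int.cast_lt.1 this
    omega
  have c2 : W ≤ l := by
    have h1 : 1 * (W + 3) ≤ (k : ℤ) * (W + 3) :=
      mul_le_mul_of_nonneg_right (by exact_mod_cast hk1) (by omega)
    omega
  have c3 : 2 * W ≤ n := by
    have h1 : (4 : ℝ) * l ≤ n := by nlinarith
    have h2 : 4 * l ≤ n := by exact_mod_cast h1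
    omega
  have c4 : (n : ℤ) < M * l := by
    have h1 : (n : ℝ) < M * l := by
      rw [div_lt_iff₀ ha] at hM
      have h2 : a * n / 8 ≤ (l : ℝ) := by
        have : (1 : ℝ) ≤ k := hk1
        linarith
      have h3 : (n : ℝ) * 8 < (M * a) * n := by
        have hnp : (0 : ℝ) < n := by
          by_contra h
          have : (n : ℝ) = 0 := le_antisymm (not_lt.1 h) hn0
          rw [this] at hn'
          linarith
        nlinarith
      have h4 : (M : ℝ) * (a * n / 8) ≤ M * l := mul_le_mul_of_nonneg_left h2 hM0.le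
      linarith
    exact_mod_cast h1
  have c5 : 4 * l ≤ E := by
    have : ((4 * l : ℤ) : ℝ) ≤ (E : ℝ) := by push_cast; linarith
    exact_mod_cast this
  have h1 := hmain k n M W l hW1 c2 c3 c1 c4
  have h2 : pr (EW 0 n 0 n) (LayX n w E) ≤ ε / 2 := by
    refine (pr_mono (layX_mono hWw c5)).trans (h1.trans ?_)
    have : (M : ℝ) * (2 * q ^ k) ≤ M * (2 * (ε / (4 * M))) := by gcongr
    refine this.trans (le_of_eq ?_)
    field_simp
    ring
  have h3 := pr_layY_le n w E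
  refine (prB_le (B := LayX n w E ∪ LayY n w E) fun T _ hT => hT).trans
    ((pr_union_le _ _ _).trans ?_)
  linarith

theorem diam_small (ε : ℝ) (hε : 0 < ε) : ∃ k₀ : ℝ, 0 < k₀ ∧
    ∀ᶠ n : ℕ in atTop, prB n {T | ∀ v ∈ Box n, Metric.diam (clS T v) < k₀ * n} ≤ ε := by
  obtain ⟨m₀, hm₀⟩ := exists_pow_lt_of_lt_one hε (show (1 / 2 : ℝ) < 1 by norm_num)
  set m := m₀ + 1 with hm
  have hm1 : (1 : ℝ) ≤ m := by rw [hm]; push_cast; linarith [(m₀ : ℕ).cast_nonneg (α := ℝ)]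
  have hme : (1 / 2 : ℝ) ^ m ≤ ε := by
    refine le_trans ?_ hm₀.le
    exact pow_le_pow_of_le_one (by norm_num) (by norm_num) (Nat.le_succ _)
  refine ⟨1 / (2 * m), by positivity, ?_⟩
  filter_upwards [eventually_ge_atTop (4 * m)] with n hn
  have hn' : (4 : ℝ) * m ≤ n := by exact_mod_cast hn
  set D : ℕ := ⌈1 / (2 * (m : ℝ)) * n⌉₊ with hD
  have hD1 : 1 / (2 * (m : ℝ)) * n ≤ D := Nat.le_ceil _
  have hD2 : (D : ℝ) < 1 / (2 * (m : ℝ)) * n + 1 := Nat.ceil_lt_add_one (by positivity)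
  have hD0 : 1 ≤ D := Nat.one_le_ceil_iff.2 (by
    have : (0 : ℝ) < n := by linarith
    positivity)
  have hc : m * (D + 1) ≤ n + 1 := by
    have h1 : (m : ℝ) * (1 / (2 * (m : ℝ)) * n) = n / 2 := by field_simp
    have h2 : (m : ℝ) * (D + 1) < n / 2 + 2 * m := by
      have := mul_lt_mul_of_pos_left hD2 (show (0 : ℝ) < m by linarith)
      rw [mul_add, h1] at this
      rw [mul_add]
      linarith
    have h3 : ((m * (D + 1) : ℕ) : ℝ) ≤ ((n + 1 : ℕ) : ℝ) := by
      push_cast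
      linarith
    exact_mod_cast h3
  refine le_trans (prB_mono (B := {T | ∀ v ∈ Box n, Metric.diam (clS T v) < D}) ?_)
    ((prB_diam_lt m hD0 hc).trans hme)
  intro T _ hT v hv
  exact (hT v hv).trans_le hD1

end Pool.Agent.PercD
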