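import Pool.Agent.Lib.MP_6bd702_percd.PI

/-!
# The two point function (task D_Two)
-/

set_option autoImplicit false

namespace Pool.Agent.PercD

open Finset Pool.Agent.Perc

theorem rp_le {x y c : ℝ} (_hx : 0 < x) (hy : 0 < y) (hc : 1 ≤ c) (h : y ≤ c * x) :
    x ^ (-(1 / 4 : ℝ)) ≤ c * y ^ (-(1 / 4 : ℝ)) := by
  have hc0 : 0 < c := by linarith
  have h1 : y / c ≤ x := by
    rw [div_le_iff₀ hc0]; linarith
  have h2 : x ^ (-(1 / 4 : ℝ)) ≤ (y / c) ^ (-(1 / 4 : ℝ)) :=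
    Real.rpow_le_rpow_of_nonpos (div_pos hy hc0) h1 (by norm_num)
  have h3 : (y / c) ^ (-(1 / 4 : ℝ)) = c ^ (1 / 4 : ℝ) * y ^ (-(1 / 4 : ℝ)) := by
    rw [Real.div_rpow hy.le hc0.le, Real.rpow_neg hc0.le, div_inv_eq_mul, mul_comm]
  have h4 : c ^ (1 / 4 : ℝ) ≤ c := by
    calc c ^ (1 / 4 : ℝ) ≤ c ^ (1 : ℝ) := Real.rpow_le_rpow_of_exponent_le hc (by norm_num)
      _ = c := Real.rpow_one c
  rw [h3] at h2
  exact h2.trans (mul_le_mul_of_nonneg_right h4 (Real.rpow_nonneg hy.le _))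

theorem self_inE (e : UE) {r : ℤ} (hr : 1 ≤ r) : InE (ua e) r e := by
  obtain ⟨x, y, c⟩ := e
  unfold InE InR
  cases c
  · rw [ua_mk, ub_false]; simp only; omega
  · rw [ua_mk, ub_true]; simp only; omega

/-- Both `e` and `e'` have long components. -/
theorem two_bound (hU : UpperHyp) (hT : TailHyp) : ∃ C : ℝ, 0 < C ∧
    ∀ (e e' : UE) (D w : ℕ), 1 ≤ w → D ≤ w →
      (|(ua e').1 - (ua e).1| = D ∧ |(ua e').2 - (ua e).2| ≤ D ∨
        |(ua e').1 - (ua e).1| ≤ D ∧ |(ua e').2 - (ua e).2| = D) →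
      pr (BR (ua e) (2 * w)) (Rch (ua e) w e ∩ Rch (ua e') w e') ≤
        C * ((D : ℝ) + 1) ^ (-(1 / 4 : ℝ)) * (w : ℝ) ^ (-(1 / 4 : ℝ)) := by
  obtain ⟨C₂, hC₂, hxi⟩ := xi_bound hU hT
  obtain ⟨C₁, hC₁, hup⟩ := hU
  refine ⟨2 * C₁ + 32 * C₁ ^ 2 + 32 * C₁ ^ 2 * C₂, by positivity, ?_⟩
  intro e e' D w hw hDw hdist
  have hw0 : (0 : ℝ) < w := by exact_mod_cast hw
  have hD0 : (0 : ℝ) < (D : ℝ) + 1 := by positivity
  set a : ℝ := ((D : ℝ) + 1) ^ (-(1 / 4 : ℝ)) with ha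
  set b : ℝ := (w : ℝ) ^ (-(1 / 4 : ℝ)) with hb
  have ha0 : 0 < a := Real.rpow_pos_of_pos hD0 _
  have hb0 : 0 < b := Real.rpow_pos_of_pos hw0 _
  have hsplit : (2 * C₁ + 32 * C₁ ^ 2 + 32 * C₁ ^ 2 * C₂) * a * b =
      2 * C₁ * a * b + 32 * C₁ ^ 2 * a * b + 32 * C₁ ^ 2 * C₂ * a * b := by ring
  have hp1 : 0 ≤ 2 * C₁ * a * b := by positivity
  have hp2 : 0 ≤ 32 * C₁ ^ 2 * a * b := by positivity
  have hp3 : 0 ≤ 32 * C₁ ^ 2 * C₂ * a * b := by positivity
  rw [hsplit]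
  by_cases hD : D ≤ 1
  · -- trivial bound
    have h1 : pr (BR (ua e) (2 * w)) (Rch (ua e) w e ∩ Rch (ua e') w e') ≤ C₁ * b := by
      calc pr (BR (ua e) (2 * w)) (Rch (ua e) w e ∩ Rch (ua e') w e')
          ≤ pr (BR (ua e) (2 * w)) (Rch (ua e) w e) := pr_mono _ fun ω h => h.1
        _ = pr (BR (ua e) w) (Rch (ua e) w e) :=
            pr_eq_of_depOn (depOn_Rch _ _ _) (Sub.refl' (by omega)).subset
        _ ≤ C₁ * b := hup e w hw
    have h2 : (1 : ℝ) ≤ 2 * a := by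
      have h3 := rp_le (x := 1) (y := (D : ℝ) + 1) (c := 2) one_pos hD0 (by norm_num)
        (by have : (D : ℝ) ≤ 1 := by exact_mod_cast hD
            linarith)
      rwa [Real.one_rpow] at h3
    have h4 : C₁ * b ≤ 2 * C₁ * a * b := by
      have : C₁ * b * 1 ≤ C₁ * b * (2 * a) := mul_le_mul_of_nonneg_left h2 (by positivity)
      linarith
    linarith
  · push Not at hD
    obtain ⟨d, hd⟩ : ∃ d : ℕ, d = D / 2 := ⟨_, rfl⟩
    have hd1 : 1 ≤ d := by omega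
    have hd2 : 2 * d ≤ D := by omega
    have hd3 : D + 1 ≤ 4 * d := by omega
    have hdr : (d : ℝ) ^ (-(1 / 4 : ℝ)) ≤ 4 * a :=
      rp_le (by exact_mod_cast hd1) hD0 (by norm_num) (by exact_mod_cast hd3)
    have hA : pr (BR (ua e) d) (Rch (ua e) d e) ≤ 4 * C₁ * a := by
      have := hup e d hd1
      have h5 := mul_le_mul_of_nonneg_left hdr hC₁.le
      linarith
    have hB : pr (BR (ua e') d) (Rch (ua e') d e') ≤ 4 * C₁ * a := by
      have := hup e' d hd1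
      have h5 := mul_le_mul_of_nonneg_left hdr hC₁.le
      linarith
    have hdisj : Disjoint (BR (ua e) d) (BR (ua e') d) := by
      rw [Finset.disjoint_left]
      intro f h1 h2
      rw [mem_BR] at h1 h2
      rcases hdist with ⟨h3, -⟩ | ⟨-, h3⟩
      · rcases abs_cases ((ua e').1 - (ua e).1) with ⟨h4, -⟩ | ⟨h4, -⟩ <;> omega
      · rcases abs_cases ((ua e').2 - (ua e).2) with ⟨h4, -⟩ | ⟨h4, -⟩ <;> omega
    have hdx : |(ua e').1 - (ua e).1| ≤ D ∧ |(ua e').2 - (ua e).2| ≤ D := by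
      rcases hdist with ⟨h3, h4⟩ | ⟨h3, h4⟩
      · exact ⟨h3.le, h4⟩
      · exact ⟨h3, h4.le⟩
    have hdx1 := abs_le.1 hdx.1
    have hdx2 := abs_le.1 hdx.2
    have hs1 : ∀ R : ℤ, (d : ℤ) ≤ R → BR (ua e) d ⊆ BR (ua e) R := fun R h => (Sub.refl' h).subset
    have hs2 : ∀ R : ℤ, (D : ℤ) + d ≤ R → BR (ua e') d ⊆ BR (ua e) R := fun R h =>
      Sub.subset (by unfold Sub; omega)
    have hsubA : ∀ ω ∈ Rch (ua e) w e, ω ∈ Rch (ua e) d e := fun ω h =>
      Rch_sub (Sub.refl' (by omega)) (self_inE e (by omega)) h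
    have hsubB : ∀ ω ∈ Rch (ua e') w e', ω ∈ Rch (ua e') d e' := fun ω h =>
      Rch_sub (Sub.refl' (by omega)) (self_inE e' (by omega)) h
    have haa : 0 ≤ 4 * C₁ * a := by positivity
    by_cases hc : 2 * D ≤ w
    · -- three events
      have hX := hxi (ua e) (2 * D) w (by omega) hc
      have hX' : pr (BR (ua e) w \ BR (ua e) ((2 * D : ℕ) : ℤ))
          (Xev (ua e) ((2 * D : ℕ) : ℤ) w) ≤ C₂ * (2 * (((D : ℝ) + 1) ^ (1 / 4 : ℝ) * b)) := by
        refine hX.trans (mul_le_mul_of_nonneg_left ?_ hC₂.le)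
        have h6 : (((2 * D : ℕ) : ℝ) / w) ≤ 2 * ((D : ℝ) + 1) / w := by
          push_cast
          exact div_le_div_of_nonneg_right (by linarith) hw0.le
        calc (((2 * D : ℕ) : ℝ) / w) ^ (1 / 4 : ℝ)
            ≤ (2 * ((D : ℝ) + 1) / w) ^ (1 / 4 : ℝ) :=
              Real.rpow_le_rpow (by positivity) h6 (by norm_num)
          _ = 2 ^ (1 / 4 : ℝ) * (((D : ℝ) + 1) ^ (1 / 4 : ℝ) * b) := by
              rw [Real.div_rpow (by positivity) hw0.le, Real.mul_rpow (by norm_num) hD0.le, hb,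
                Real.rpow_neg hw0.le, div_eq_mul_inv, mul_assoc]
          _ ≤ 2 * (((D : ℝ) + 1) ^ (1 / 4 : ℝ) * b) := by
              refine mul_le_mul_of_nonneg_right ?_ (by positivity)
              calc (2 : ℝ) ^ (1 / 4 : ℝ) ≤ 2 ^ (1 : ℝ) :=
                    Real.rpow_le_rpow_of_exponent_le (by norm_num) (by norm_num)
                _ = 2 := Real.rpow_one 2
      have h7 : pr (BR (ua e) (2 * w)) (Rch (ua e) w e ∩ Rch (ua e') w e') ≤
          pr (BR (ua e) (2 * w)) (Rch (ua e) d e ∩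
            (Rch (ua e') d e' ∩ Xev (ua e) ((2 * D : ℕ) : ℤ) w)) := by
        refine pr_mono _ fun ω h => ⟨hsubA ω h.1, hsubB ω h.2, ?_⟩
        exact Xev_of_Rch (self_inE e (by omega)) h.1 (by exact_mod_cast hc)
      have h8 : pr (BR (ua e) (2 * w)) (Rch (ua e) d e ∩
            (Rch (ua e') d e' ∩ Xev (ua e) ((2 * D : ℕ) : ℤ) w)) =
          pr (BR (ua e) d) (Rch (ua e) d e) * (pr (BR (ua e') d) (Rch (ua e') d e') *
            pr (BR (ua e) w \ BR (ua e) ((2 * D : ℕ) : ℤ)) (Xev (ua e) ((2 * D : ℕ) : ℤ) w)) := by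
        have hd23 : Disjoint (BR (ua e') d) (BR (ua e) w \ BR (ua e) ((2 * D : ℕ) : ℤ)) := by
          rw [Finset.disjoint_left]
          intro f h1 h2
          rw [mem_sdiff] at h2
          exact h2.2 (hs2 _ (by push_cast; omega) h1)
        have hd13 : Disjoint (BR (ua e) d) (BR (ua e) w \ BR (ua e) ((2 * D : ℕ) : ℤ)) := by
          rw [Finset.disjoint_left]
          intro f h1 h2
          rw [mem_sdiff] at h2
          exact h2.2 (hs1 _ (by push_cast; omega) h1)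
        have hdep : DepOn (BR (ua e') d ∪ (BR (ua e) w \ BR (ua e) ((2 * D : ℕ) : ℤ)) :
            Finset (ℤ × ℤ)) (Rch (ua e') d e' ∩ Xev (ua e) ((2 * D : ℕ) : ℤ) w) := by
          intro ω ω' hω
          have h1 := depOn_Rch (ua e') d e' ω ω' fun f hf =>
            hω f (mem_coe.2 (mem_union_left _ (mem_coe.1 hf)))
          have h2 := depOn_Xev (ua e) ((2 * D : ℕ) : ℤ) w ω ω' fun f hf =>
            hω f (mem_coe.2 (mem_union_right _ (mem_coe.1 hf)))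
          rw [Set.mem_inter_iff, Set.mem_inter_iff, h1, h2]
        rw [pr_indep (depOn_Rch (ua e) d e) hdep
          (Finset.disjoint_union_right.2 ⟨hdisj, hd13⟩) (hs1 _ (by omega))
          (union_subset (hs2 _ (by omega)) ((sdiff_subset).trans (Sub.refl' (by omega)).subset)),
          pr_inter_of_disjoint (depOn_Rch (ua e') d e') (depOn_Xev _ _ _) hd23]
      have h9 : pr (BR (ua e) d) (Rch (ua e) d e) * (pr (BR (ua e') d) (Rch (ua e') d e') *
            pr (BR (ua e) w \ BR (ua e) ((2 * D : ℕ) : ℤ)) (Xev (ua e) ((2 * D : ℕ) : ℤ) w)) ≤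
          (4 * C₁ * a) * ((4 * C₁ * a) * (C₂ * (2 * (((D : ℝ) + 1) ^ (1 / 4 : ℝ) * b)))) :=
        mul_le_mul hA (mul_le_mul hB hX' (pr_nonneg _ _) haa)
          (mul_nonneg (pr_nonneg _ _) (pr_nonneg _ _)) haa
      have h10 : a * ((D : ℝ) + 1) ^ (1 / 4 : ℝ) = 1 := by
        rw [ha, ← Real.rpow_add hD0]
        norm_num
      have h11 : (4 * C₁ * a) * ((4 * C₁ * a) * (C₂ * (2 * (((D : ℝ) + 1) ^ (1 / 4 : ℝ) * b)))) =
          32 * C₁ ^ 2 * C₂ * a * b * (a * ((D : ℝ) + 1) ^ (1 / 4 : ℝ)) := by ring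
      rw [h11, h10, mul_one] at h9
      linarith
    · -- two events
      push Not at hc
      have h7 : pr (BR (ua e) (2 * w)) (Rch (ua e) w e ∩ Rch (ua e') w e') ≤
          pr (BR (ua e) (2 * w)) (Rch (ua e) d e ∩ Rch (ua e') d e') :=
        pr_mono _ fun ω h => ⟨hsubA ω h.1, hsubB ω h.2⟩
      rw [pr_indep (depOn_Rch (ua e) d e) (depOn_Rch (ua e') d e') hdisj (hs1 _ (by omega))
        (hs2 _ (by omega))] at h7
      have h8 : a ≤ 2 * b := rp_le hD0 hw0 (by norm_num) (by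
        have : (w : ℝ) < 2 * D := by exact_mod_cast hc
        linarith)
      have h9 : pr (BR (ua e) d) (Rch (ua e) d e) * pr (BR (ua e') d) (Rch (ua e') d e') ≤
          (4 * C₁ * a) * (4 * C₁ * a) := mul_le_mul hA hB (pr_nonneg _ _) haa
      have h10 : (4 * C₁ * a) * (4 * C₁ * a) ≤ 32 * C₁ ^ 2 * a * b := by
        have h11 : 16 * C₁ ^ 2 * a * a ≤ 16 * C₁ ^ 2 * a * (2 * b) :=
          mul_le_mul_of_nonneg_left h8 (by positivity)
        linarith [h11]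
      linarith

end Pool.Agent.PercD
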