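import Pool.Agent.Lib.MP_6bd702_percd.B1
import Pool.Agent.Lib.MP_6bd702_percd.Two

/-!
# Target B2
-/

set_option autoImplicit false

namespace Pool.Agent.PercD

open Finset Pool.Agent.Perc
open Pool.Agent.MP_6bd702.H23 (Ed)
open Pool.Agent.PercU (Cor vtx fce)
open Pool.Agent.PercO (Orb sd Kc Oc mem_Oc)
open Pool.Agent.PercX60 (gV gF gB gT phiF dB TA Sn toC_re toC_im)
open Pool.Agent.PercW (kap ua_kap joins_kap)

variable {n : ℕ} {v x : ℤ × ℤ} {ω : Cfg}

theorem rp_bound {α X Y : ℝ} (hα : 0 < α) (hY : 0 < Y) (h : α * Y ≤ X) :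
    X ^ (-(1 / 4) : ℝ) ≤ α ^ (-(1 / 4) : ℝ) * Y ^ (-(1 / 4) : ℝ) := by
  rw [← Real.mul_rpow hα.le hY.le]
  exact Real.rpow_le_rpow_of_nonpos (by positivity) h (by norm_num)

theorem ua_near (k : Cor) : ((phiV (vtx k)).1 - 1 ≤ (ua (kap k)).1 ∧
    (ua (kap k)).1 ≤ (phiV (vtx k)).1) ∧ (phiV (vtx k)).2 - 1 ≤ (ua (kap k)).2 ∧
      (ua (kap k)).2 ≤ (phiV (vtx k)).2 := by
  obtain ⟨x, y, _ | _, _ | _⟩ := k <;> simp [kap, ua, phiV, vtx]

theorem dist_toC_le (v w : ℤ × ℤ) : dist (toC v) (toC w) ≤ ((|v.1 - w.1| + |v.2 - w.2| : ℤ) : ℝ) := by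
  rw [Complex.dist_eq]
  refine (Complex.norm_le_abs_re_add_abs_im _).trans ?_
  rw [Complex.sub_re, Complex.sub_im, toC_re, toC_re, toC_im, toC_im]
  push_cast
  exact le_rfl

theorem targetB2 (hU : UpperHyp) (hT : TailHyp) : TargetB2 := by
  intro κ k₀ hκ hk₀
  obtain ⟨C₂, hC₂, h2⟩ := two_bound hU hT
  obtain ⟨C₁, hC₁, h1⟩ := hU
  set c : ℝ := min κ k₀ / 16 with hc
  have hc0 : 0 < c := by rw [hc]; have := lt_min hκ hk₀; positivity
  have hcκ : 16 * c ≤ κ := by rw [hc]; linarith [min_le_left κ k₀]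
  have hck : 16 * c ≤ k₀ := by rw [hc]; linarith [min_le_right κ k₀]
  set A₁ : ℝ := C₂ * (c / 4) ^ (-(1 / 4) : ℝ) with hA₁
  set A₂ : ℝ := C₁ ^ 2 * (c ^ 2 / 192) ^ (-(1 / 4) : ℝ) with hA₂
  set A₃ : ℝ := (c ^ 2 / 12) ^ (-(1 / 4) : ℝ) with hA₃
  have hA₁0 : 0 ≤ A₁ := by rw [hA₁]; positivity
  have hA₂0 : 0 ≤ A₂ := by rw [hA₂]; positivity
  have hA₃0 : 0 ≤ A₃ := by rw [hA₃]; positivity
  refine ⟨16 * (A₁ + A₂) + A₃, ?_⟩
  intro n hn v w hv hw
  have hn1 : (1 : ℝ) ≤ n := by exact_mod_cast hn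
  have hn0 : (0 : ℝ) < n := by linarith
  obtain ⟨hv1, hv2, hv3, hv4⟩ := hv
  obtain ⟨hw1, hw2, hw3, hw4⟩ := hw
  have hκn : 0 < κ * n := by positivity
  set d : ℝ := dist (toC v) (toC w) with hd
  have hd0 : 0 ≤ d := dist_nonneg
  have hdL : d ≤ ((|v.1 - w.1| + |v.2 - w.2| : ℤ) : ℝ) := dist_toC_le v w
  have hdn : d ≤ 2 * n := by
    refine hdL.trans ?_
    push_cast
    have e1 : |(v.1 : ℝ) - w.1| ≤ n := abs_le.2 ⟨by linarith, by linarith⟩
    have e2 : |(v.2 : ℝ) - w.2| ≤ n := abs_le.2 ⟨by linarith, by linarith⟩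
    linarith
  set Y : ℝ := (1 + d) * n with hY
  have hY0 : 0 < Y := by rw [hY]; positivity
  have hYn : Y ≤ 3 * (n : ℝ) ^ 2 := by
    rw [hY]
    nlinarith
  have hYr : 0 ≤ Y ^ (-(1 / 4) : ℝ) := by positivity
  by_cases hbig : 2 ≤ c * n
  · set W : ℕ := ⌊c * n⌋₊ with hW
    have hW1 : (W : ℝ) ≤ c * n := Nat.floor_le (by positivity)
    have hW2 : c * n < (W : ℝ) + 1 := Nat.lt_floor_add_one _
    have hW3 : 2 ≤ W := Nat.le_floor (by exact_mod_cast hbig)
    have hW4 : (2 : ℝ) ≤ W := by exact_mod_cast hW3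
    have hW5 : c * n ≤ 2 * W := by linarith
    have hκW : ((2 * (W : ℤ) + 1 : ℤ) : ℝ) ≤ κ * n := by
      push_cast
      nlinarith
    have hdBv : 2 * (W : ℤ) + 1 ≤ dB n v := by
      refine le_dB ?_ ?_ ?_ ?_
      · have := hκW.trans hv1
        exact_mod_cast this
      · have : (v.1 : ℝ) ≤ (((n : ℤ) - (2 * W + 1) : ℤ) : ℝ) := by
          push_cast at hκW ⊢; linarith
        exact_mod_cast this
      · have := hκW.trans hv3
        exact_mod_cast this
      · have : (v.2 : ℝ) ≤ (((n : ℤ) - (2 * W + 1) : ℤ) : ℝ) := by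
          push_cast at hκW ⊢; linarith
        exact_mod_cast this
    have hdBw : 2 * (W : ℤ) + 1 ≤ dB n w := by
      refine le_dB ?_ ?_ ?_ ?_
      · have := hκW.trans hw1
        exact_mod_cast this
      · have : (w.1 : ℝ) ≤ (((n : ℤ) - (2 * W + 1) : ℤ) : ℝ) := by
          push_cast at hκW ⊢; linarith
        exact_mod_cast this
      · have := hκW.trans hw3
        exact_mod_cast this
      · have : (w.2 : ℝ) ≤ (((n : ℤ) - (2 * W + 1) : ℤ) : ℝ) := by
          push_cast at hκW ⊢; linarith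
        exact_mod_cast this
    -- one pair of corners
    have key : ∀ k k' : Cor, vtx k = v → vtx k' = w →
        pr (Sn n) (Rch (ua (kap k)) W (kap k) ∩ Rch (ua (kap k')) W (kap k')) ≤
          (A₁ + A₂) * Y ^ (-(1 / 4) : ℝ) := by
      intro k k' hk hk'
      have hn1' := ua_near k
      have hn2' := ua_near k'
      rw [hk] at hn1'
      rw [hk'] at hn2'
      simp only [phiV] at hn1' hn2'
      set a₁ : ℤ := (ua (kap k')).1 - (ua (kap k)).1 with ha₁
      set a₂ : ℤ := (ua (kap k')).2 - (ua (kap k)).2 with ha₂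
      obtain ⟨D, hD⟩ : ∃ D : ℕ, (D : ℤ) = max |a₁| |a₂| :=
        ⟨(max |a₁| |a₂|).toNat, Int.toNat_of_nonneg ((abs_nonneg _).trans (le_max_left _ _))⟩
      have hDa₁ : |a₁| ≤ D := by rw [hD]; exact le_max_left _ _
      have hDa₂ : |a₂| ≤ D := by rw [hD]; exact le_max_right _ _
      by_cases hDW : D ≤ W
      · have hb := h2 (kap k) (kap k') D W (by omega) hDW (by
          rcases max_choice |a₁| |a₂| with h | h
          · exact Or.inl ⟨by rw [hD, h], hDa₂⟩
          · exact Or.inr ⟨hDa₁, by rw [hD, h]⟩)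
        have hdep : DepOn (BR (ua (kap k)) (2 * W))
            (Rch (ua (kap k)) W (kap k) ∩ Rch (ua (kap k')) W (kap k')) := by
          have s1 : BR (ua (kap k)) W ⊆ BR (ua (kap k)) (2 * W) :=
            Sub.subset (Sub.refl' (by omega))
          have s2 : BR (ua (kap k')) W ⊆ BR (ua (kap k)) (2 * W) := by
            refine Sub.subset ?_
            unfold Sub
            have e1 := abs_le.1 hDa₁
            have e2 := abs_le.1 hDa₂
            omega
          intro ω ω' h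
          exact and_congr
            (depOn_Rch _ _ _ ω ω' fun f hf => h f (mem_coe.2 (s1 (mem_coe.1 hf))))
            (depOn_Rch _ _ _ ω ω' fun f hf => h f (mem_coe.2 (s2 (mem_coe.1 hf))))
        have hsub : BR (ua (kap k)) (2 * W) ⊆ Sn n := BR_kap_sub (by rw [hk]; exact hdBv)
        rw [pr_eq_of_depOn hdep hsub]
        refine hb.trans ?_
        have hD0 : (0 : ℝ) < (D : ℝ) + 1 := by positivity
        have hW0 : (0 : ℝ) < W := by linarith
        have hLD : |v.1 - w.1| + |v.2 - w.2| ≤ (D : ℤ) + 1 := by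
          have e1 := abs_le.1 hDa₁
          have e2 := abs_le.1 hDa₂
          rcases abs_cases (v.1 - w.1) with ⟨e3, _⟩ | ⟨e3, _⟩ <;>
            rcases abs_cases (v.2 - w.2) with ⟨e4, _⟩ | ⟨e4, _⟩ <;> rw [e3, e4] <;> omega
        have hLD' : d ≤ (D : ℝ) + 1 := by
          refine hdL.trans ?_
          exact_mod_cast hLD
        have h3 : (c / 4) * Y ≤ ((D : ℝ) + 1) * W := by
          rw [hY]
          have e1 : (1 + d) / 2 ≤ (D : ℝ) + 1 := by
            have : (0 : ℝ) ≤ D := Nat.cast_nonneg D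
            linarith
          have e2 : c * n / 2 ≤ W := by linarith
          calc c / 4 * ((1 + d) * n) = (1 + d) / 2 * (c * n / 2) := by ring
            _ ≤ _ := mul_le_mul e1 e2 (by positivity) hD0.le
        have h4 := rp_bound (by positivity) hY0 h3
        rw [Real.mul_rpow hD0.le hW0.le] at h4
        calc C₂ * ((D : ℝ) + 1) ^ (-(1 / 4) : ℝ) * (W : ℝ) ^ (-(1 / 4) : ℝ)
            = C₂ * (((D : ℝ) + 1) ^ (-(1 / 4) : ℝ) * (W : ℝ) ^ (-(1 / 4) : ℝ)) := by ring
          _ ≤ C₂ * ((c / 4) ^ (-(1 / 4) : ℝ) * Y ^ (-(1 / 4) : ℝ)) :=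
              mul_le_mul_of_nonneg_left h4 hC₂.le
          _ = A₁ * Y ^ (-(1 / 4) : ℝ) := by rw [hA₁]; ring
          _ ≤ _ := mul_le_mul_of_nonneg_right (by linarith) hYr
      · -- independence
        obtain ⟨r, hr1, hr2, hr3⟩ : ∃ r : ℕ, 1 ≤ r ∧ 2 * r ≤ W ∧ W ≤ 4 * r :=
          ⟨W / 2, by omega, by omega, by omega⟩
        have hr0 : (0 : ℝ) < r := by exact_mod_cast (by omega : 0 < r)
        have hself : ∀ k : Cor, Rch (ua (kap k)) W (kap k) ⊆ Rch (ua (kap k)) r (kap k) := by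
          intro k ω hω
          exact Rch_sub (Sub.refl' (by omega)) (LTail.inE_self _ (by omega)) hω
        have s1 : BR (ua (kap k)) r ⊆ Sn n := BR_kap_sub (by rw [hk]; omega)
        have s2 : BR (ua (kap k')) r ⊆ Sn n := BR_kap_sub (by rw [hk']; omega)
        have hdis : Disjoint (BR (ua (kap k)) r) (BR (ua (kap k')) r) := by
          rw [Finset.disjoint_left]
          intro f hf hf'
          rw [mem_BR] at hf hf'
          have e1 : (D : ℤ) ≤ max |a₁| |a₂| := hD.le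
          rcases le_max_iff.1 e1 with e2 | e2
          · rcases le_abs.1 e2 with e3 | e3 <;> omega
          · rcases le_abs.1 e2 with e3 | e3 <;> omega
        have hb : pr (Sn n) (Rch (ua (kap k)) W (kap k) ∩ Rch (ua (kap k')) W (kap k')) ≤
            (C₁ * (r : ℝ) ^ (-(1 / 4) : ℝ)) * (C₁ * (r : ℝ) ^ (-(1 / 4) : ℝ)) := by
          refine (pr_mono _ (Set.inter_subset_inter (hself k) (hself k'))).trans ?_
          rw [pr_indep (depOn_Rch _ _ _) (depOn_Rch _ _ _) hdis s1 s2]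
          exact mul_le_mul (h1 (kap k) r hr1) (h1 (kap k') r hr1) (pr_nonneg _ _) (by positivity)
        refine hb.trans ?_
        have h3 : (c ^ 2 / 192) * Y ≤ (r : ℝ) * r := by
          have e0 : (W : ℝ) ≤ 4 * r := by exact_mod_cast hr3
          have e1 : c * n / 8 ≤ r := by linarith
          have e2 : (0 : ℝ) ≤ c * n / 8 := by positivity
          calc c ^ 2 / 192 * Y ≤ c ^ 2 / 192 * (3 * (n : ℝ) ^ 2) :=
                mul_le_mul_of_nonneg_left hYn (by positivity)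
            _ = (c * n / 8) * (c * n / 8) := by ring
            _ ≤ _ := mul_le_mul e1 e1 e2 hr0.le
        have h4 := rp_bound (by positivity) hY0 h3
        rw [Real.mul_rpow hr0.le hr0.le] at h4
        calc (C₁ * (r : ℝ) ^ (-(1 / 4) : ℝ)) * (C₁ * (r : ℝ) ^ (-(1 / 4) : ℝ))
            = C₁ ^ 2 * ((r : ℝ) ^ (-(1 / 4) : ℝ) * (r : ℝ) ^ (-(1 / 4) : ℝ)) := by ring
          _ ≤ C₁ ^ 2 * ((c ^ 2 / 192) ^ (-(1 / 4) : ℝ) * Y ^ (-(1 / 4) : ℝ)) :=
              mul_le_mul_of_nonneg_left h4 (by positivity)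
          _ = A₂ * Y ^ (-(1 / 4) : ℝ) := by rw [hA₂]; ring
          _ ≤ _ := mul_le_mul_of_nonneg_right (by linarith) hYr
    -- the union
    rw [← PercX60.pr_Sn]
    set I : Finset (Bool × Bool × Bool × Bool) := univ with hI
    set E : Bool × Bool × Bool × Bool → Set Cfg := fun i =>
      Rch (ua (kap (v.1, v.2, i.1, i.2.1))) W (kap (v.1, v.2, i.1, i.2.1)) ∩
        Rch (ua (kap (w.1, w.2, i.2.2.1, i.2.2.2))) W (kap (w.1, w.2, i.2.2.1, i.2.2.2)) with hE
    have hsub : {ω | cfgE n ω ∈ {T | ∃ u, k₀ * n ≤ Metric.diam (clS T u) ∧ v ∈ OutV T u ∧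
        w ∈ OutV T u}} ⊆ ⋃ i ∈ I, E i := by
      rintro ω ⟨u, hD, hv', hw'⟩
      obtain ⟨k, hk, hkv⟩ := exists_cor hv'
      obtain ⟨k', hk', hkw⟩ := exists_cor hw'
      have hRD : 4 * (((W : ℤ) : ℝ) + 2) ≤ k₀ * n := by
        push_cast
        nlinarith
      have r1 := Rch_of_outer (R := (W : ℤ)) hk hD (by rw [hkv]; omega) (by omega) hRD
      have r2 := Rch_of_outer (R := (W : ℤ)) hk' hD (by rw [hkw]; omega) (by omega) hRD
      simp only [Set.mem_iUnion]
      obtain ⟨x, y, b1, b2⟩ := k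
      obtain ⟨x', y', b3, b4⟩ := k'
      refine ⟨(b1, b2, b3, b4), mem_univ _, ?_⟩
      simp only [hE]
      have e1 : (x, y) = v := hkv
      have e2 : (x', y') = w := hkw
      subst e1 e2
      exact ⟨r1, r2⟩
    refine (pr_mono _ hsub).trans ((pr_biUnion_le _ _ _).trans ?_)
    refine (Finset.sum_le_sum fun i _ => key _ _ rfl rfl).trans ?_
    rw [sum_const, nsmul_eq_mul]
    have hcard : (I.card : ℝ) = 16 := by
      rw [hI, card_univ]
      simp only [Fintype.card_prod, Fintype.card_bool]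
      norm_num
    rw [hcard]
    nlinarith
  · refine (PercX60.prB_le_one _ _).trans ?_
    push Not at hbig
    have h3 : (c ^ 2 / 12) * Y ≤ 1 := by
      have e1 : (c * n) ^ 2 ≤ 4 := by
        have : 0 ≤ c * n := by positivity
        nlinarith
      calc c ^ 2 / 12 * Y ≤ c ^ 2 / 12 * (3 * (n : ℝ) ^ 2) :=
            mul_le_mul_of_nonneg_left hYn (by positivity)
        _ = (c * n) ^ 2 / 4 := by ring
        _ ≤ 1 := by linarith
    have h4 := rp_bound (by positivity) hY0 h3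
    rw [Real.one_rpow] at h4
    calc (1 : ℝ) ≤ A₃ * Y ^ (-(1 / 4) : ℝ) := h4
      _ ≤ _ := mul_le_mul_of_nonneg_right (by linarith) hYr

end Pool.Agent.PercD
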