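import Pool.Agent.Lib.MP_6bd702_percd.BoxA
import Pool.Agent.Lib.MP_6bd702_percw.Inner
import Pool.Agent.Lib.MP_6bd702_percd.Macro

/-!
# Part D: the estimate B3 in the box
-/

set_option autoImplicit false

namespace Pool.Agent.PercD

open Finset Filter Topology Pool.Agent.Perc
open Pool.Agent.MP_6bd702.H23 (Ed)
open Pool.Agent.PercU (Cor vtx fce)
open Pool.Agent.PercO (Orb sd Kc Oc mem_Oc orb_eq_Oc)
open Pool.Agent.PercX60 (gV gF gB gT phiF dB TA Sn)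
open Pool.Agent.PercW (kap ua_kap joins_kap Lay mem_Lay LayX LayY kap_injective)

namespace B3

variable {n : ℕ} {u : ℤ × ℤ} {k : Cor} {ω : Cfg}

theorem BR_phiV_sub {v : ℤ × ℤ} {R : ℤ} (hR : R + 1 ≤ dB n v) : BR (phiV v) R ⊆ Sn n := by
  have h := BR_kap_sub (n := n) (k := (v.1, v.2, true, true)) (R := R) hR
  have h1 : ua (kap (v.1, v.2, true, true)) = phiV v := by
    simp [kap, ua, phiV]
  rwa [h1] at h

/-- A set of corners has at most four times as many elements as its set of vertices. -/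
theorem ncard_cor_le {S : Set Cor} {V : Set (ℤ × ℤ)} (hV : V.Finite)
    (h : ∀ k ∈ S, vtx k ∈ V) : S.ncard ≤ 4 * V.ncard := by
  have hinj : Function.Injective (fun k : Cor => (vtx k, k.2.2)) := by
    rintro ⟨x, y, a, b⟩ ⟨x', y', a', b'⟩ h
    simp only [vtx, Prod.mk.injEq] at h
    obtain ⟨⟨rfl, rfl⟩, rfl, rfl⟩ := h
    rfl
  have h1 : ((fun k : Cor => (vtx k, k.2.2)) '' S) ⊆ V ×ˢ (Set.univ : Set (Bool × Bool)) := by
    rintro _ ⟨k, hk, rfl⟩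
    exact ⟨h k hk, trivial⟩
  have h2 := Set.ncard_le_ncard h1 (hV.prod Set.finite_univ)
  rw [Set.ncard_image_of_injective _ hinj, Set.ncard_prod, Set.ncard_univ] at h2
  have h3 : Nat.card (Bool × Bool) = 4 := by simp
  rw [h3] at h2
  omega

/-- Many outer vertices. -/
theorem many_outer {R : ℕ} {D m : ℝ} (hk : k ∈ Oc (cfgE n ω : Set Ed) u) (hD0 : 0 < D)
    (hD : D ≤ Metric.diam (clS (cfgE n ω) u)) (hR : 2 * (R : ℤ) + 2 ≤ dB n (vtx k))
    (hR1 : 1 ≤ R) (hm : m < ((MM ω (BR (ua (kap k)) R) (kap k)).ncard : ℝ)) {κ : ℝ} (hκ : κ ≤ R) :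
    m / 4 ≤ (({v | v ∈ OutV (cfgE n ω) u ∧ Bulk n κ v} : Set (ℤ × ℤ)).ncard : ℝ) := by
  set T : Set Ed := (cfgE n ω : Set Ed) with hT
  have hTsub : T ⊆ (Pool.Agent.MP_6bd702.H23.EW 0 (n : ℤ) 0 n : Set Ed) :=
    PercO.boxE_sub (Finset.filter_subset _ _)
  set V : Set (ℤ × ℤ) := {v | v ∈ OutV (cfgE n ω) u ∧ Bulk n κ v} with hVdef
  have hVfin : V.Finite := by
    refine ((cfgE n ω).image tl ∪ (cfgE n ω).image hd).finite_toSet.subset fun v hv => ?_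
    obtain ⟨⟨e, he, -, -, h⟩, -⟩ := hv
    rw [mem_coe, mem_union, mem_image, mem_image]
    rcases h with h | h
    · exact Or.inl ⟨e, he, h.symm⟩
    · exact Or.inr ⟨e, he, h.symm⟩
  set S : Set Cor := {k' | kap k' ∈ MM ω (BR (ua (kap k)) R) (kap k)} with hS
  have hSV : ∀ k' ∈ S, vtx k' ∈ V := by
    intro k' hk'
    have hk'' : kap k' ∈ MM ω (BR (ua (kap k)) R) (kap k) := hk'
    have hR' : (R : ℤ) + 1 ≤ dB n (vtx k) := by
      have : (0 : ℤ) ≤ R := Int.natCast_nonneg R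
      omega
    obtain ⟨k2, hk2, h2⟩ := mem_orb_of_MM hR' hk''
    have h3 : k2 = k' := kap_injective h2
    rw [h3, ← hT, orb_eq_Oc hTsub hk] at hk2
    refine ⟨outV_of_cor (lt_of_lt_of_le hD0 hD) hk2, ?_⟩
    -- the distance
    have hin : InE (ua (kap k)) R (kap k) := LTail.inE_self _ (by exact_mod_cast hR1)
    have hin2 : InE (ua (kap k)) R (kap k') := MM_inE hin hk''
    have hgg : (ua (kap k)).1 - R ≤ (ua (kap k')).1 ∧ (ua (kap k')).1 ≤ (ua (kap k)).1 + R ∧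
        (ua (kap k)).2 - R ≤ (ua (kap k')).2 ∧ (ua (kap k')).2 ≤ (ua (kap k)).2 + R := by
      unfold InE InR at hin2
      omega
    have hd1 : (vtx k).1 - (R + 1) ≤ (vtx k').1 ∧ (vtx k').1 ≤ (vtx k).1 + (R + 1) ∧
        (vtx k).2 - (R + 1) ≤ (vtx k').2 ∧ (vtx k').2 ≤ (vtx k).2 + (R + 1) := by
      obtain ⟨x, y, _ | _, _ | _⟩ := k <;> obtain ⟨x', y', _ | _, _ | _⟩ := k' <;>
        simp [kap, ua, vtx] at hgg ⊢ <;> omega
    unfold dB at hR
    have h5 : (R : ℤ) ≤ (vtx k').1 ∧ (vtx k').1 + R ≤ n ∧ (R : ℤ) ≤ (vtx k').2 ∧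
        (vtx k').2 + R ≤ n := by omega
    have h6 : ((R : ℤ) : ℝ) ≤ (vtx k').1 ∧ ((vtx k').1 : ℝ) + ((R : ℤ) : ℝ) ≤ n ∧
        ((R : ℤ) : ℝ) ≤ (vtx k').2 ∧ ((vtx k').2 : ℝ) + ((R : ℤ) : ℝ) ≤ n := by
      exact_mod_cast h5
    obtain ⟨h7, h8, h9, h10⟩ := h6
    rw [Int.cast_natCast] at h7 h8 h9 h10
    exact ⟨by linarith, by linarith, by linarith, by linarith⟩
  have h1 := ncard_cor_le hVfin hSV
  have h2 : (MM ω (BR (ua (kap k)) R) (kap k)).ncard = S.ncard := by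
    have h3 : kap '' S = MM ω (BR (ua (kap k)) R) (kap k) := by
      ext a
      constructor
      · rintro ⟨k', hk', rfl⟩
        exact hk'
      · intro ha
        obtain ⟨k', rfl⟩ := kap_surjective a
        exact ⟨k', ha, rfl⟩
    rw [← h3, Set.ncard_image_of_injective _ kap_injective]
  rw [h2] at hm
  have h4 : ((S.ncard : ℕ) : ℝ) ≤ 4 * (V.ncard : ℝ) := by exact_mod_cast h1
  linarith

/-- The centres. -/
noncomputable def Cen (n M s d : ℕ) : Finset (ℕ × ℕ) :=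
  (range (M + 1) ×ˢ range (M + 1)).filter fun p => 2 * (d : ℤ) + 1 ≤ dB n ((p.1 * s : ℤ), (p.2 * s : ℤ))

theorem card_Cen_le (n M s d : ℕ) : ((Cen n M s d).card : ℝ) ≤ ((M : ℝ) + 1) ^ 2 := by
  have h : (Cen n M s d).card ≤ (M + 1) * (M + 1) := by
    refine (card_filter_le _ _).trans ?_
    rw [card_product, card_range]
  have h2 : ((Cen n M s d).card : ℝ) ≤ (((M + 1) * (M + 1) : ℕ) : ℝ) := by exact_mod_cast h
  push_cast at h2
  linarith [h2]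

/-- The deterministic part. -/
theorem det {M s d : ℕ} {w E : ℤ} {D m : ℝ} (hu : u ∈ Box n) (hD0 : 0 < D)
    (hD : D ≤ Metric.diam (clS (cfgE n ω) u)) (hE : (E : ℝ) ≤ D / 2)
    (hX : (cfgE n ω : Set Ed) ∉ LayX n w E) (hY : (cfgE n ω : Set Ed) ∉ LayY n w E)
    (hd : 1 ≤ d) (hs : 1 ≤ s) (hsd : 2 * s + 1 ≤ d) (hw : 3 * (d : ℤ) + 3 ≤ w)
    (hdD : 4 * ((d : ℝ) + 2) ≤ D) (hM : n ≤ M * s)
    (hbad : ∀ p ∈ Cen n M s d, ω ∉ Bad (phiV ((p.1 * s : ℤ), (p.2 * s : ℤ))) d m) {κ : ℝ}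
    (hκ : κ ≤ d) :
    m / 4 ≤ (({v | v ∈ OutV (cfgE n ω) u ∧ Bulk n κ v} : Set (ℤ × ℤ)).ncard : ℝ) := by
  have hTb : cfgE n ω ⊆ boxE n := Finset.filter_subset _ _
  obtain ⟨k, hk, hkl, -⟩ := PercW.exists_inner_corner hTb hu hD0 hD hE hX hY
  have hbox : vtx k ∈ Box n := by
    refine BoxAux.clV_subset_box hTb hu ?_
    rw [PercO.clV_eq]
    exact hk.1
  have hb : 0 ≤ (vtx k).1 ∧ (vtx k).1 ≤ n ∧ 0 ≤ (vtx k).2 ∧ (vtx k).2 ≤ n := by
    unfold Box at hbox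
    rw [mem_product, mem_Icc, mem_Icc] at hbox
    omega
  rw [mem_Lay] at hkl
  have hdB : w ≤ dB n (vtx k) := by
    unfold dB
    push Not at hkl
    have := hkl hb
    omega
  -- the centre
  have hs0 : (0 : ℤ) < s := by exact_mod_cast hs
  have hMs : ((n : ℕ) : ℤ) ≤ M * s := by exact_mod_cast hM
  set i := (vtx k).1 / (s : ℤ) with hi
  set j := (vtx k).2 / (s : ℤ) with hj
  have h1 := Int.emod_add_mul_ediv (vtx k).1 s
  have h2 := Int.emod_nonneg (vtx k).1 hs0.ne'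
  have h3 := Int.emod_lt_of_pos (vtx k).1 hs0
  have h4 := Int.emod_add_mul_ediv (vtx k).2 s
  have h5 := Int.emod_nonneg (vtx k).2 hs0.ne'
  have h6 := Int.emod_lt_of_pos (vtx k).2 hs0
  rw [← hi] at h1
  rw [← hj] at h4
  have hi0 : 0 ≤ i := Int.ediv_nonneg hb.1 hs0.le
  have hj0 : 0 ≤ j := Int.ediv_nonneg hb.2.2.1 hs0.le
  have hiM : i ≤ M := by
    by_contra hcon
    push Not at hcon
    have : (M : ℤ) * s + s ≤ s * i := by nlinarith
    omega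
  have hjM : j ≤ M := by
    by_contra hcon
    push Not at hcon
    have : (M : ℤ) * s + s ≤ s * j := by nlinarith
    omega
  have hsdz : 2 * (s : ℤ) + 1 ≤ d := by exact_mod_cast hsd
  have hci : ((i.toNat : ℕ) : ℤ) = i := Int.toNat_of_nonneg hi0
  have hcj : ((j.toNat : ℕ) : ℤ) = j := Int.toNat_of_nonneg hj0
  have hp : (i.toNat, j.toNat) ∈ Cen n M s d := by
    unfold Cen
    rw [mem_filter, mem_product, mem_range, mem_range]
    refine ⟨⟨by omega, by omega⟩, ?_⟩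
    simp only
    rw [hci, hcj, mul_comm i, mul_comm j]
    unfold dB at hdB ⊢
    simp only
    omega
  have hb1 := hbad _ hp
  simp only at hb1
  rw [hci, hcj] at hb1
  have hin : InE (phiV (i * s, j * s)) d (kap k) := by
    refine kap_inE k (d := s) ?_ ?_ (by omega)
    · simp only
      rw [abs_le, mul_comm i]
      omega
    · simp only
      rw [abs_le, mul_comm j]
      omega
  have hR : ω ∈ Rch (ua (kap k)) (d : ℤ) (kap k) :=
    Rch_of_outer hk hD (by omega) (by exact_mod_cast hd) (by exact_mod_cast hdD)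
  have hm : m < ((MM ω (BR (ua (kap k)) d) (kap k)).ncard : ℝ) := by
    by_contra hcon
    push Not at hcon
    exact hb1 ⟨kap k, hin, hR, hcon⟩
  exact many_outer hk hD0 hD (by omega) hd hm hκ

/-- The union bound. -/
theorem pr_bad_le {M s d : ℕ} {m η : ℝ}
    (h : ∀ v : ℤ × ℤ, pr (BR v (2 * d)) (Bad v d m) ≤ η) (hη : 0 ≤ η) :
    pr (Sn n) (⋃ p ∈ Cen n M s d, Bad (phiV ((p.1 * s : ℤ), (p.2 * s : ℤ))) d m) ≤
      ((M : ℝ) + 1) ^ 2 * η := by
  refine (pr_biUnion_le _ _ _).trans ?_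
  have h1 : ∀ p ∈ Cen n M s d, pr (Sn n) (Bad (phiV ((p.1 * s : ℤ), (p.2 * s : ℤ))) d m) ≤ η := by
    intro p hp
    unfold Cen at hp
    rw [mem_filter] at hp
    rw [pr_eq_of_depOn (depOn_Bad _ _ _) (BR_phiV_sub hp.2)]
    exact h _
  refine (sum_le_sum h1).trans ?_
  rw [sum_const, nsmul_eq_mul]
  exact mul_le_mul_of_nonneg_right (card_Cen_le n M s d) hη

end B3

theorem targetB3 (hU : UpperHyp) (hT : TailHyp) :
    TargetB3 := by
  intro ε hε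
  obtain ⟨k₀, hk₀, hdiam⟩ := diam_small (ε / 3) (by positivity)
  obtain ⟨κ₁, hκ₁, hlay⟩ := lay_small (k₀ / 4) (ε / 3) (by positivity) (by positivity)
  set c₂ : ℝ := min (κ₁ / 4) (k₀ / 8) with hc₂
  have hc₂0 : 0 < c₂ := by positivity
  set M : ℕ := ⌈4 / c₂⌉₊ with hM
  obtain ⟨x₀, hx₀, hlt⟩ := lt_bound hU hT (η := ε / 3 / ((M : ℝ) + 1) ^ 2) (by positivity)
  refine ⟨c₂ / 2, k₀, x₀ * (c₂ / 2) ^ (7 / 4 : ℝ) / 4, by positivity, hk₀, by positivity, ?_⟩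
  intro sel hsel
  filter_upwards [hdiam, hlay, eventually_ge_atTop (max ⌈24 / c₂⌉₊ 1)] with n h1 h2 h3
  have hn1 : (1 : ℝ) ≤ n := by
    have : 1 ≤ n := (le_max_right _ _).trans h3
    exact_mod_cast this
  have hn2 : 24 ≤ c₂ * n := by
    have h4 : 24 / c₂ ≤ n := by
      refine (Nat.le_ceil _).trans ?_
      exact_mod_cast (le_max_left _ _).trans h3
    rw [div_le_iff₀ hc₂0] at h4
    linarith
  have hn0 : (0 : ℝ) < n := by linarith
  set d : ℕ := ⌊c₂ * n⌋₊ with hd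
  have hd1 : (d : ℝ) ≤ c₂ * n := Nat.floor_le (by positivity)
  have hd2 : c₂ * n < d + 1 := Nat.lt_floor_add_one _
  set s : ℕ := (d - 1) / 2 with hs
  have hd24 : 23 < d := by
    have : (23 : ℝ) < d := by linarith
    exact_mod_cast this
  have hs1 : d ≤ 2 * s + 2 := by omega
  have hs2 : 2 * s + 1 ≤ d := by omega
  have hs3 : (d : ℝ) ≤ 2 * s + 2 := by exact_mod_cast hs1
  have hs4 : c₂ * n / 4 ≤ s := by linarith
  set w : ℤ := ⌊κ₁ * n⌋ with hw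
  have hw1 : (w : ℝ) ≤ κ₁ * n := Int.floor_le _
  have hw2 : κ₁ * n < w + 1 := Int.lt_floor_add_one _
  set E : ℤ := ⌊k₀ * n / 2⌋ with hE
  have hE1 : (E : ℝ) ≤ k₀ * n / 2 := Int.floor_le _
  have hE2 : k₀ * n / 2 < E + 1 := Int.lt_floor_add_one _
  have hc4 : c₂ ≤ κ₁ / 4 := min_le_left _ _
  have hc8 : c₂ ≤ k₀ / 8 := min_le_right _ _
  have hc4n : c₂ * n ≤ κ₁ * n / 4 := by nlinarith
  have hc8n : c₂ * n ≤ k₀ * n / 8 := by nlinarith
  have hlay' := h2 w E hw1 (by linarith)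
  have hM1 : n ≤ M * s := by
    have h4 : 4 / c₂ ≤ M := Nat.le_ceil _
    have h5 : (n : ℝ) ≤ M * s := by
      calc (n : ℝ) = 4 / c₂ * (c₂ * n / 4) := by field_simp
        _ ≤ M * s := mul_le_mul h4 hs4 (by positivity) (by positivity)
    exact_mod_cast h5
  have hwd : 3 * (d : ℤ) + 3 ≤ w := by
    have h4 : (3 * (d : ℝ) + 3) < (w : ℝ) + 1 := by linarith
    have h5 : (3 * (d : ℤ) + 3) < w + 1 := by exact_mod_cast h4
    omega
  have hbad := B3.pr_bad_le (n := n) (M := M) (s := s) (d := d)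
    (m := x₀ * (d : ℝ) ^ (7 / 4 : ℝ)) (fun v => hlt v d (by omega)) (by positivity)
  have hbad' : ((M : ℝ) + 1) ^ 2 * (ε / 3 / ((M : ℝ) + 1) ^ 2) = ε / 3 := by
    field_simp
  rw [hbad'] at hbad
  set G1 : Set (Finset Edg) := {T | ∀ v ∈ Box n, Metric.diam (clS T v) < k₀ * n} with hG1
  set G2 : Set (Finset Edg) := {T | (T : Set Ed) ∈ LayX n w E ∨ (T : Set Ed) ∈ LayY n w E} with hG2
  set G3 : Set Cfg := ⋃ p ∈ B3.Cen n M s d, Bad (phiV ((p.1 * s : ℤ), (p.2 * s : ℤ))) d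
    (x₀ * (d : ℝ) ^ (7 / 4 : ℝ)) with hG3
  rw [← PercX60.pr_Sn] at h1 hlay' ⊢
  refine le_trans (pr_mono _ (B := {ω | cfgE n ω ∈ G1} ∪ ({ω | cfgE n ω ∈ G2} ∪ G3)) ?_)
    ((pr_union_le _ _ _).trans ?_)
  · intro ω hω
    by_contra hcon
    rw [Set.mem_union, Set.mem_union] at hcon
    push Not at hcon
    obtain ⟨hc1, hc2, hc3⟩ := hcon
    refine hω ?_
    have hTb : cfgE n ω ⊆ boxE n := Finset.filter_subset _ _
    obtain ⟨hs5, hs6⟩ := hsel n (cfgE n ω) hTb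
    have hdm : k₀ * n ≤ Metric.diam (clS (cfgE n ω) (sel n (cfgE n ω))) := by
      by_contra hlt'
      push Not at hlt'
      exact hc1 fun v hv => lt_of_le_of_lt (hs6 v hv) hlt'
    refine ⟨hdm, ?_⟩
    rw [Set.mem_ofPred_eq, hG2, Set.mem_ofPred_eq, not_or] at hc2
    have h4 := B3.det (n := n) (ω := ω) (u := sel n (cfgE n ω)) (M := M) (s := s) (d := d) (w := w)
      (E := E) (D := k₀ * n) (m := x₀ * (d : ℝ) ^ (7 / 4 : ℝ)) hs5 (by positivity) hdm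
      (by linarith) hc2.1 hc2.2 (by omega) (by omega) hs2 hwd (by linarith) hM1 ?_
      (κ := c₂ / 2 * n) (by linarith)
    · refine le_trans ?_ h4
      have h5 : (c₂ / 2 * n) ^ (7 / 4 : ℝ) ≤ (d : ℝ) ^ (7 / 4 : ℝ) :=
        Real.rpow_le_rpow (by positivity) (by linarith) (by norm_num)
      rw [Real.mul_rpow (by positivity) hn0.le] at h5
      calc x₀ * (c₂ / 2) ^ (7 / 4 : ℝ) / 4 * (n : ℝ) ^ (7 / 4 : ℝ)
          = x₀ * ((c₂ / 2) ^ (7 / 4 : ℝ) * (n : ℝ) ^ (7 / 4 : ℝ)) / 4 := by ring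
        _ ≤ x₀ * (d : ℝ) ^ (7 / 4 : ℝ) / 4 := by
            have := mul_le_mul_of_nonneg_left h5 hx₀.le
            linarith
    · intro p hp hb
      refine hc3 ?_
      rw [hG3]
      exact Set.mem_biUnion hp hb
  · have h6 := pr_union_le (Sn n) {ω | cfgE n ω ∈ G2} G3
    linarith

end Pool.Agent.PercD
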