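import Pool.Agent.Lib.MP_6bd702_percd.BoxA
import Pool.Agent.Lib.MP_6bd702_percw.LowFinal

/-!
# The lower tail in the form needed for the macroscopic lower tail
-/

set_option autoImplicit false

namespace Pool.Agent.PercD

open Finset Filter Topology Pool.Agent.Perc

namespace TailH

/-- Every unit edge is a unit edge at its even end. -/
theorem exists_ue (e : UE) : ∃ (p : ℤ × ℤ) (d : Fin 4), (p.1 + p.2) % 2 = 0 ∧ PercL.ue p d = e ∧
    Joins e p (PercL.nb p d) ∧ |p.1 - (ua e).1| ≤ 1 ∧ |p.2 - (ua e).2| ≤ 1 := by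
  obtain ⟨x, y, b⟩ := e
  rcases Int.emod_two_eq_zero_or_one (x + y) with h | h
  · cases b
    · exact ⟨(x, y), 0, h, rfl, Or.inl ⟨rfl, rfl⟩, by simp [ua], by simp [ua]⟩
    · exact ⟨(x, y), 1, h, rfl, Or.inl ⟨rfl, rfl⟩, by simp [ua], by simp [ua]⟩
  · cases b
    · refine ⟨(x + 1, y), 2, by simp only; omega, by simp [PercL.ue],
        Or.inr ⟨by simp [ub], by simp [PercL.nb, ua]⟩, by simp [ua], by simp [ua]⟩
    · refine ⟨(x, y + 1), 3, by simp only; omega, by simp [PercL.ue],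
        Or.inr ⟨by simp [ub], by simp [PercL.nb, ua]⟩, by simp [ua], by simp [ua]⟩

theorem toBd_smaller {v p u : ℤ × ℤ} {r R : ℤ} {ω : Cfg} (hp1 : |p.1 - v.1| ≤ 1)
    (hp2 : |p.2 - v.2| ≤ 1) (hR : R + 1 ≤ r)
    (hu : p.1 - R ≤ u.1 ∧ u.1 ≤ p.1 + R ∧ p.2 - R ≤ u.2 ∧ u.2 ≤ p.2 + R)
    (h : ToBd (v.1 - r) (v.1 + r) (v.2 - r) (v.2 + r) ω u) :
    ToBd (p.1 - R) (p.1 + R) (p.2 - R) (p.2 + R) ω u := by
  obtain ⟨w, hw, hb⟩ := h
  rw [abs_le] at hp1 hp2
  obtain ⟨w', h1, h2⟩ := Conn.toBd hw hu (by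
    unfold OnBd at hb
    omega)
  exact ⟨w', h1.mono Set.inter_subset_right, h2⟩

theorem QF_sub {e : UE} {p : ℤ × ℤ} (h1 : |p.1 - (ua e).1| ≤ 1) (h2 : |p.2 - (ua e).2| ≤ 1)
    {R r : ℤ} (h : R + 1 ≤ r) : PercL.QF p R ⊆ BR (ua e) r := by
  rw [abs_le] at h1 h2
  intro f hf
  rw [mem_BR]
  unfold PercL.QF at hf
  rw [mem_RF] at hf
  omega

/-- The event of the lower tail, at the even end. -/
theorem sub_event {e : UE} {p : ℤ × ℤ} {d : Fin 4} (hue : PercL.ue p d = e)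
    (hj : Joins e p (PercL.nb p d)) (h1 : |p.1 - (ua e).1| ≤ 1) (h2 : |p.2 - (ua e).2| ≤ 1)
    {R : ℤ} {r : ℕ} (h : R + 1 ≤ (r : ℤ)) (hR : 1 ≤ R) {t t' : ℝ} (ht : t ≤ t') {ω : Cfg}
    (hω : ω ∈ Rch (ua e) r e ∧ ((MM ω (BR (ua e) r) e).ncard : ℝ) < t) :
    ω ∈ PercL.TA p d R ∧ ((MM ω (PercL.QF p R) (PercL.ue p d)).ncard : ℝ) < t' := by
  obtain ⟨⟨a, ha, hb⟩, hcard⟩ := hω
  have hr : (0 : ℤ) ≤ r := Int.natCast_nonneg r
  constructor
  · refine ⟨?_, ?_⟩
    · refine toBd_smaller h1 h2 h (by omega) ?_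
      exact toBd_of_tip hj ha hb (by omega) (by omega)
    · refine toBd_smaller h1 h2 h ?_ ?_
      · fin_cases d <;> simp [PercL.nb] <;> omega
      · exact toBd_of_tip hj.symm ha hb (by omega) (by omega)
  · have h3 : MM ω (PercL.QF p R) (PercL.ue p d) ⊆ MM ω (BR (ua e) r) e := by
      rw [hue]
      exact fun b hb => MM_mono (Finset.coe_subset.2 (QF_sub h1 h2 h)) hb
    have h4 : ((MM ω (PercL.QF p R) (PercL.ue p d)).ncard : ℝ) ≤
        ((MM ω (BR (ua e) r) e).ncard : ℝ) := by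
      exact_mod_cast Set.ncard_le_ncard h3 (MM_finite' r)
    linarith

/-- The probability of a long component. -/
theorem p2_le_pr_Rch (e : UE) {r : ℕ} (hr : 1 ≤ r) :
    p2 r ≤ pr (BR (ua e) r) (Rch (ua e) r e) := by
  obtain ⟨k, rfl⟩ := kap_surjective e
  have h1 : pr (BR (ua (PercW.kap k)) r) (PercX60.TA r k) = p2 r := by
    refine PercX60.pr_TA k ?_
    rw [PercW.ua_kap]
    exact subset_rfl
  rw [← h1]
  refine pr_mono _ ?_
  intro ω hω
  obtain ⟨g1, g2⟩ := hω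
  have hj := PercW.joins_kap k
  have hr' : (1 : ℤ) ≤ r := by exact_mod_cast hr
  have hself := LTail.inE_self (PercW.kap k) hr'
  rw [← PercW.ua_kap] at g1 g2
  rcases hj with ⟨h3, h4⟩ | ⟨h3, h4⟩
  · exact exists_tip (Or.inl ⟨h3, h4⟩) (by rw [h3]; exact hself.1) (by rw [h4]; exact hself.2)
      (by omega) (by omega) g1 g2
  · exact exists_tip (Or.inr ⟨h3, h4⟩) (by rw [h3]; exact hself.2) (by rw [h4]; exact hself.1)
      (by omega) (by omega) g1 g2

end TailH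

open TailH

/-- The lower tail. -/
theorem tailHyp_of (hP : PercL.P2Bounds) : TailHyp := by
  obtain ⟨M, c, c₁, hM, hc, hc', hc₁, hlow⟩ := PercL.lower_tail_at hP
  obtain ⟨a, C, ha, hC, hPb⟩ := hP
  -- the constant lost in the first comparison
  set D : ℝ := max 1 (2 * C / a) with hD
  have hD1 : 1 ≤ D := le_max_left _ _
  obtain ⟨m, hm⟩ : ∃ m : ℕ, D * (1 - c) ^ m ≤ 1 / 2 := by
    have h1 : Tendsto (fun m : ℕ => D * (1 - c) ^ m) atTop (𝓝 (D * 0)) :=
      (tendsto_pow_atTop_nhds_zero_of_lt_one (by linarith) (by linarith)).const_mul D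
    rw [mul_zero] at h1
    exact (h1.eventually (ge_mem_nhds (by norm_num : (0 : ℝ) < 1 / 2))).exists
  have hm0 : 0 < m := by
    rcases Nat.eq_zero_or_pos m with h | h
    · rw [h, pow_zero, mul_one] at hm; linarith
    · exact h
  set S : ℕ := 8 * M * m with hS
  have hS0 : 0 < S := by positivity
  have hSr : (0 : ℝ) < S := by exact_mod_cast hS0
  set c₂ : ℝ := min (c₁ * (1 / (2 * S) : ℝ) ^ (7 / 4 : ℝ)) ((1 / S : ℝ) ^ (7 / 4 : ℝ)) with hc₂
  have hc₂0 : 0 < c₂ := by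
    refine lt_min (mul_pos hc₁ (Real.rpow_pos_of_pos (by positivity) _))
      (Real.rpow_pos_of_pos (by positivity) _)
  refine ⟨c₂, 1 / 2, 2, hc₂0, by norm_num, by norm_num, fun e r s K hs hr => ?_⟩
  have hr2 : 2 ≤ r := by omega
  have hs0 : (0 : ℝ) < s := by exact_mod_cast hs
  -- no steps
  rcases Nat.eq_zero_or_pos K with rfl | hK
  · rw [zero_mul, add_zero, pow_zero, one_mul]
    exact pr_mono _ fun ω hω => hω.1
  rcases Nat.lt_or_ge s S with hsS | hsS
  · -- small steps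
    have hempty : {ω | ω ∈ Rch (ua e) ((r + K * s : ℕ) : ℤ) e ∧
        ((MM ω (BR (ua e) ((r + K * s : ℕ) : ℤ)) e).ncard : ℝ) < c₂ * (s : ℝ) ^ (7 / 4 : ℝ)}
        = ∅ := by
      rw [Set.eq_empty_iff_forall_notMem]
      rintro ω ⟨-, h2⟩
      have h3 : (1 : ℝ) ≤ ((MM ω (BR (ua e) ((r + K * s : ℕ) : ℤ)) e).ncard : ℝ) := by
        exact_mod_cast one_le_ncard (ω := ω) (e := e) (r + K * s)
      have h4 : c₂ * (s : ℝ) ^ (7 / 4 : ℝ) ≤ 1 := by
        calc c₂ * (s : ℝ) ^ (7 / 4 : ℝ) ≤ (1 / S : ℝ) ^ (7 / 4 : ℝ) * (S : ℝ) ^ (7 / 4 : ℝ) := by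
              refine mul_le_mul (min_le_right _ _) ?_ (by positivity) (by positivity)
              exact Real.rpow_le_rpow hs0.le (by exact_mod_cast hsS.le) (by norm_num)
          _ = 1 := by
              rw [← Real.mul_rpow (by positivity) (by positivity), one_div,
                inv_mul_cancel₀ hSr.ne', Real.one_rpow]
      linarith
    rw [hempty]
    have h5 : pr (BR (ua e) ((r + K * s : ℕ) : ℤ)) (∅ : Set Cfg) = 0 := by
      unfold pr
      simp
    rw [h5]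
    exact mul_nonneg (by positivity) (pr_nonneg _ _)
  · -- large steps
    obtain ⟨p, d, hpar, hue, hj, hp1, hp2⟩ := exists_ue e
    set r' : ℕ := s / S with hr'
    have hr'1 : 1 ≤ r' := (Nat.one_le_div_iff hS0).2 hsS
    have hr's : S * r' ≤ s := Nat.mul_div_le s S
    have hr's2 : s < S * (r' + 1) := by
      have := Nat.lt_mul_div_succ s hS0
      simpa [hr', Nat.succ_eq_add_one] using this
    have hMr' : (M : ℤ) * r' ≤ (r : ℤ) - 1 := by
      have h1 : M * r' ≤ s := by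
        refine le_trans ?_ hr's
        rw [hS]
        nlinarith [Nat.mul_le_mul_right r' (show M ≤ 8 * M * m by nlinarith)]
      have h2 : M * r' + 1 ≤ r := by omega
      have h3 : ((M * r' + 1 : ℕ) : ℤ) ≤ r := by exact_mod_cast h2
      push_cast at h3
      omega
    have hlast : (r : ℤ) - 1 + 8 * (M * r') * ((m * K : ℕ) : ℤ) + 1 ≤ ((r + K * s : ℕ) : ℤ) := by
      have h1 : 8 * (M * r') * (m * K) ≤ K * s := by
        calc 8 * (M * r') * (m * K) = K * (S * r') := by rw [hS]; ring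
          _ ≤ K * s := Nat.mul_le_mul_left K hr's
      have h2 : ((8 * (M * r') * (m * K) : ℕ) : ℤ) ≤ ((K * s : ℕ) : ℤ) := by exact_mod_cast h1
      push_cast at h2 ⊢
      linarith
    have hR1 : (1 : ℤ) ≤ (r : ℤ) - 1 + 8 * (M * r') * ((m * K : ℕ) : ℤ) := by
      have h1 : (0 : ℤ) ≤ 8 * (M * r') * ((m * K : ℕ) : ℤ) := by positivity
      have h2 : (2 : ℤ) ≤ r := by exact_mod_cast hr2
      omega
    -- the thresholds
    have hth : c₂ * (s : ℝ) ^ (7 / 4 : ℝ) ≤ c₁ * (((r' : ℕ) : ℤ) : ℝ) ^ (7 / 4 : ℝ) := by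
      calc c₂ * (s : ℝ) ^ (7 / 4 : ℝ)
          ≤ c₁ * (1 / (2 * S) : ℝ) ^ (7 / 4 : ℝ) * (s : ℝ) ^ (7 / 4 : ℝ) :=
            mul_le_mul_of_nonneg_right (min_le_left _ _) (by positivity)
        _ = c₁ * (s / (2 * S) : ℝ) ^ (7 / 4 : ℝ) := by
            rw [mul_assoc, ← Real.mul_rpow (by positivity) hs0.le]
            congr 2
            ring
        _ ≤ _ := by
            refine mul_le_mul_of_nonneg_left ?_ hc₁.le
            refine Real.rpow_le_rpow (by positivity) ?_ (by norm_num)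
            rw [div_le_iff₀ (by positivity)]
            have h1 : (s : ℝ) ≤ S * (r' + 1) := by exact_mod_cast hr's2.le
            have h2 : (1 : ℝ) ≤ r' := by exact_mod_cast hr'1
            push_cast
            nlinarith
    have h1 : pr (BR (ua e) ((r + K * s : ℕ) : ℤ)) {ω | ω ∈ Rch (ua e) ((r + K * s : ℕ) : ℤ) e ∧
        ((MM ω (BR (ua e) ((r + K * s : ℕ) : ℤ)) e).ncard : ℝ) < c₂ * (s : ℝ) ^ (7 / 4 : ℝ)}
        ≤ (1 - c) ^ (m * K) * p2 ((r : ℤ) - 1) := by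
      refine le_trans (pr_mono _ fun ω hω => sub_event hue hj hp1 hp2 hlast hR1 hth hω) ?_
      exact hlow (r' : ℤ) ((r : ℤ) - 1) p d (m * K) hpar (by exact_mod_cast hr'1) hMr' _
        (QF_sub hp1 hp2 hlast)
    -- comparison of the probabilities
    have h2 : p2 ((r : ℤ) - 1) ≤ D * pr (BR (ua e) r) (Rch (ua e) r e) := by
      have hr1 : 1 ≤ r - 1 := by omega
      have e1 : ((r : ℤ) - 1) = ((r - 1 : ℕ) : ℤ) := by omega
      have h3 := (hPb (r - 1) hr1).2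
      have h4 := (hPb r (by omega)).1
      rw [e1]
      have h5 : ((r - 1 : ℕ) : ℝ) ^ (-(1 / 4) : ℝ) ≤ 2 * (r : ℝ) ^ (-(1 / 4) : ℝ) := by
        have h6 : (r : ℝ) / 2 ≤ ((r - 1 : ℕ) : ℝ) := by
          have h7 : (r : ℝ) ≤ 2 * ((r - 1 : ℕ) : ℝ) := by exact_mod_cast (by omega : r ≤ 2 * (r - 1))
          linarith
        have hr0 : (0 : ℝ) < r := by exact_mod_cast (by omega : 0 < r)
        calc ((r - 1 : ℕ) : ℝ) ^ (-(1 / 4) : ℝ) ≤ ((r : ℝ) / 2) ^ (-(1 / 4) : ℝ) :=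
              Real.rpow_le_rpow_of_nonpos (by positivity) h6 (by norm_num)
          _ = (1 / 2 : ℝ) ^ (-(1 / 4) : ℝ) * (r : ℝ) ^ (-(1 / 4) : ℝ) := by
              rw [← Real.mul_rpow (by norm_num) hr0.le]
              congr 1
              ring
          _ ≤ 2 * (r : ℝ) ^ (-(1 / 4) : ℝ) := by
              refine mul_le_mul_of_nonneg_right ?_ (by positivity)
              rw [one_div, Real.inv_rpow (by norm_num), ← Real.rpow_neg (by norm_num), neg_neg]
              calc (2 : ℝ) ^ (1 / 4 : ℝ) ≤ 2 ^ (1 : ℝ) :=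
                    Real.rpow_le_rpow_of_exponent_le (by norm_num) (by norm_num)
                _ = 2 := Real.rpow_one 2
      calc p2 ((r - 1 : ℕ) : ℤ) ≤ C * ((r - 1 : ℕ) : ℝ) ^ (-(1 / 4) : ℝ) := h3
        _ ≤ C * (2 * (r : ℝ) ^ (-(1 / 4) : ℝ)) := mul_le_mul_of_nonneg_left h5 hC.le
        _ = (2 * C / a) * (a * (r : ℝ) ^ (-(1 / 4) : ℝ)) := by field_simp
        _ ≤ D * p2 r := mul_le_mul (le_max_right _ _) h4 (by positivity) (by positivity)
        _ ≤ _ := mul_le_mul_of_nonneg_left (p2_le_pr_Rch e (by omega)) (by positivity)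
    have h3 : (0 : ℝ) ≤ pr (BR (ua e) r) (Rch (ua e) r e) := pr_nonneg _ _
    have h4 : (1 - c) ^ (m * K) * D ≤ (1 / 2) ^ K := by
      rw [pow_mul]
      calc ((1 - c) ^ m) ^ K * D ≤ ((1 - c) ^ m) ^ K * D ^ K := by
            refine mul_le_mul_of_nonneg_left ?_ (by
              have : 0 ≤ 1 - c := by linarith
              positivity)
            exact le_self_pow₀ hD1 (by omega)
        _ = (D * (1 - c) ^ m) ^ K := by rw [mul_pow]; ring
        _ ≤ (1 / 2) ^ K := by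
            refine pow_le_pow_left₀ ?_ hm K
            have : 0 ≤ 1 - c := by linarith
            positivity
    calc _ ≤ (1 - c) ^ (m * K) * p2 ((r : ℤ) - 1) := h1
      _ ≤ (1 - c) ^ (m * K) * (D * pr (BR (ua e) r) (Rch (ua e) r e)) := by
          refine mul_le_mul_of_nonneg_left h2 ?_
          have : 0 ≤ 1 - c := by linarith
          positivity
      _ = (1 - c) ^ (m * K) * D * pr (BR (ua e) r) (Rch (ua e) r e) := by ring
      _ ≤ _ := mul_le_mul_of_nonneg_right h4 h3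

end Pool.Agent.PercD
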