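import Pool.Agent.Lib.MP_6bd702_percd.LT

/-!
# The mesoscopic two arm probability (task D_PI)
-/

set_option autoImplicit false

namespace Pool.Agent.PercD

open Finset Pool.Agent.Perc

variable {ω : Cfg} {e : UE} {v : ℤ × ℤ}

theorem Pev_mono {d d' w : ℤ} (h : d ≤ d') (hω : ω ∈ Pev v d w) : ω ∈ Pev v d' w := by
  obtain ⟨e, he, hA⟩ := hω
  exact ⟨e, (Sub.refl' h).inE he, hA⟩

theorem inE_self (e : UE) {R : ℤ} (hR : 1 ≤ R) : InE (ua e) R e := by
  obtain ⟨x, y, b⟩ := e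
  unfold InE InR
  cases b <;> simp [ua, ub] <;> omega

open Classical in
/-- The deterministic part. -/
theorem Pev_cases {N : ℝ} {d w : ℤ} (hd : 1 ≤ d) (hdw : 2 * d ≤ w) (h : ω ∈ Pev v d w) :
    (N ≤ (((UB v (2 * d)).filter
      fun a => ω ∈ {ω | InE v (2 * d) a ∧ ω ∈ Rch v w a}).card : ℝ)) ∨
      (ω ∈ Bad v d N ∧ ω ∈ Xev v (2 * d) w) := by
  obtain ⟨e, he, hA⟩ := h
  have hann : ω ∈ Xev v (2 * d) w := Xev_of_Rch ((Sub.refl' (by omega)).inE he) hA (by omega)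
  have hsub0 : Sub (ua e) d v (2 * d) := sub_two he
  have hsub1 : Sub (ua e) d v w := by
    unfold Sub at hsub0 ⊢
    omega
  by_cases hN : N ≤ ((MM ω (BR (ua e) d) e).ncard : ℝ)
  · left
    refine hN.trans ?_
    have hsub : MM ω (BR (ua e) d) e ⊆
        (((UB v (2 * d)).filter
          fun a => ω ∈ {ω | InE v (2 * d) a ∧ ω ∈ Rch v w a} : Finset UE) : Set UE) := by
      intro a ha
      have h2 : InE v (2 * d) a := hsub0.inE (MM_inE (inE_self e hd) ha)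
      rw [mem_coe, mem_filter]
      refine ⟨h2.mem_UB, h2, ?_⟩
      have h3 : a ∈ MM ω (BR v w) e :=
        MM_mono (F := (BR (ua e) d : Set (ℤ × ℤ))) (by exact_mod_cast hsub1.subset) ha
      exact (Rch_iff h3).2 hA
    have h4 := Set.ncard_le_ncard hsub (finite_toSet _)
    rw [Set.ncard_coe_finset] at h4
    exact_mod_cast h4
  · right
    push Not at hN
    exact ⟨⟨e, he, Rch_sub hsub1 (inE_self e hd) hA, hN.le⟩, hann⟩

theorem pr_Rch_le {C : ℝ} (hC : ∀ (e : UE) (r : ℕ), 1 ≤ r →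
    pr (BR (ua e) r) (Rch (ua e) r e) ≤ C * (r : ℝ) ^ (-(1 / 4 : ℝ))) {R r : ℕ} (hr : 1 ≤ r)
    {e : UE} {v : ℤ × ℤ} (h : Sub (ua e) r v R) :
    pr (BR v R) (Rch v R e) ≤ C * (r : ℝ) ^ (-(1 / 4 : ℝ)) := by
  refine le_trans ?_ (hC e r hr)
  rw [← pr_eq_of_depOn (depOn_Rch (ua e) r e) h.subset]
  exact pr_mono _ fun ω hω => Rch_sub h (inE_self e (by exact_mod_cast hr)) hω

theorem half_rpow_le {w : ℝ} (hw0 : 0 < w) :
    (w / 2) ^ (-(1 / 4 : ℝ)) ≤ 2 * w ^ (-(1 / 4 : ℝ)) := by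
  rw [div_eq_mul_inv, Real.mul_rpow hw0.le (by norm_num), mul_comm]
  refine mul_le_mul_of_nonneg_right ?_ (by positivity)
  rw [Real.inv_rpow (by norm_num), Real.rpow_neg (by norm_num), inv_inv]
  calc (2 : ℝ) ^ (1 / 4 : ℝ) ≤ (2 : ℝ) ^ (1 : ℝ) :=
        Real.rpow_le_rpow_of_exponent_le (by norm_num) (by norm_num)
    _ = 2 := Real.rpow_one 2

/-- One step. -/
theorem Pev_step {C : ℝ} (hC0 : 0 < C) (hC : ∀ (e : UE) (r : ℕ), 1 ≤ r →
    pr (BR (ua e) r) (Rch (ua e) r e) ≤ C * (r : ℝ) ^ (-(1 / 4 : ℝ))) {η x : ℝ} (hx : 0 < x)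
    {v : ℤ × ℤ} {d w : ℕ} (hd : 1 ≤ d) (hdw : 4 * d ≤ w)
    (hbad : pr (BR v (2 * d)) (Bad v d (x * (d : ℝ) ^ (7 / 4 : ℝ))) ≤ η) :
    pr (BR v w) (Pev v d w) ≤
      (100 * C / x) * ((d : ℝ) / w) ^ (1 / 4 : ℝ) + η * pr (BR v w) (Pev v (2 * d) w) := by
  classical
  have hd0 : (0 : ℝ) < d := by exact_mod_cast hd
  have hw0 : (0 : ℝ) < w := by
    have : 0 < w := by omega
    exact_mod_cast this
  set N : ℝ := x * (d : ℝ) ^ (7 / 4 : ℝ) with hN
  have hN0 : 0 < N := by rw [hN]; positivity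
  set s := UB v (2 * d) with hs
  set A : UE → Set Cfg := fun a => {ω | InE v (2 * d) a ∧ ω ∈ Rch v w a} with hA
  set E : Set Cfg := {ω | N ≤ ((s.filter fun a => ω ∈ A a).card : ℝ)} with hE
  have h1 : pr (BR v w) E ≤ (∑ a ∈ s, pr (BR v w) (A a)) / N := by
    have := pr_count_le (BR v w) s A hN0
    convert this
  have h2 : ∀ a ∈ s, pr (BR v w) (A a) ≤ 2 * C * (w : ℝ) ^ (-(1 / 4 : ℝ)) := by
    intro a _
    by_cases ha : InE v (2 * d) a
    · have ha1 := ha.1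
      unfold InR at ha1
      have h3 : pr (BR v w) (A a) ≤ pr (BR v w) (Rch v w a) := pr_mono _ fun ω h => h.2
      refine h3.trans ((pr_Rch_le hC (r := w - 2 * d) (by omega) (by unfold Sub; omega)).trans ?_)
      have h4 : (w : ℝ) / 2 ≤ ((w - 2 * d : ℕ) : ℝ) := by
        rw [Nat.cast_sub (by omega)]
        push_cast
        have : (4 : ℝ) * d ≤ w := by exact_mod_cast hdw
        linarith
      have h5 : ((w - 2 * d : ℕ) : ℝ) ^ (-(1 / 4 : ℝ)) ≤ ((w : ℝ) / 2) ^ (-(1 / 4 : ℝ)) :=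
        Real.rpow_le_rpow_of_nonpos (by positivity) h4 (by norm_num)
      calc C * ((w - 2 * d : ℕ) : ℝ) ^ (-(1 / 4 : ℝ)) ≤ C * (2 * (w : ℝ) ^ (-(1 / 4 : ℝ))) :=
            mul_le_mul_of_nonneg_left (h5.trans (half_rpow_le hw0)) hC0.le
        _ = 2 * C * (w : ℝ) ^ (-(1 / 4 : ℝ)) := by ring
    · have h3 : pr (BR v w) (A a) ≤ pr (BR v w) (∅ : Set Cfg) :=
        pr_mono _ fun ω h => absurd h.1 ha
      have h4 : pr (BR v w) (∅ : Set Cfg) = 0 := by
        rw [ProbA.pr_eq_sum]; simp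
      rw [h4] at h3
      refine h3.trans (by positivity)
  have h3 : (∑ a ∈ s, pr (BR v w) (A a)) ≤ 50 * (d : ℝ) ^ 2 * (2 * C * (w : ℝ) ^ (-(1 / 4 : ℝ))) := by
    refine (sum_le_sum h2).trans ?_
    have hcard : (s.card : ℝ) = 2 * (2 * (2 * (d : ℝ)) + 1) ^ 2 := by
      have := card_UB v (2 * d)
      rw [hs, show (2 * (d : ℤ)) = ((2 * d : ℕ) : ℤ) by push_cast; ring, this]
      push_cast
      ring
    rw [sum_const, nsmul_eq_mul, hcard]
    refine mul_le_mul_of_nonneg_right ?_ (by positivity)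
    have : (1 : ℝ) ≤ d := by exact_mod_cast hd
    nlinarith
  have h4 : pr (BR v w) E ≤ (100 * C / x) * ((d : ℝ) / w) ^ (1 / 4 : ℝ) := by
    refine h1.trans ((div_le_div_of_nonneg_right h3 hN0.le).trans (le_of_eq ?_))
    rw [hN, Real.div_rpow hd0.le hw0.le, Real.rpow_neg hw0.le]
    have h6 : (d : ℝ) ^ 2 = (d : ℝ) ^ (7 / 4 : ℝ) * (d : ℝ) ^ (1 / 4 : ℝ) := by
      rw [← Real.rpow_add hd0, show (7 / 4 : ℝ) + 1 / 4 = ((2 : ℕ) : ℝ) by norm_num,
        Real.rpow_natCast]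
    rw [h6]
    have h7 : (d : ℝ) ^ (7 / 4 : ℝ) ≠ 0 := by positivity
    have h8 : (w : ℝ) ^ (1 / 4 : ℝ) ≠ 0 := by positivity
    field_simp
    ring
  have h5 : pr (BR v w) (Bad v d N ∩ Xev v (2 * d) w) ≤ η * pr (BR v w) (Pev v (2 * d) w) := by
    have h6 := pr_indep (W := BR v w) (depOn_Bad v d N) (depOn_Xev v (2 * d) w) disjoint_sdiff
      (Sub.refl' (by omega)).subset sdiff_subset
    rw [h6]
    have h7 : pr (BR v w \ BR v (2 * d)) (Xev v (2 * d) w) = pr (BR v w) (Xev v (2 * d) w) :=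
      (pr_eq_of_depOn (depOn_Xev v (2 * d) w) sdiff_subset).symm
    rw [h7]
    exact mul_le_mul hbad (pr_mono _ fun ω h => Xev_sub_Pev (by omega) h)
      (pr_nonneg _ _) ((pr_nonneg _ _).trans hbad)
  calc pr (BR v w) (Pev v d w) ≤ pr (BR v w) (E ∪ (Bad v d N ∩ Xev v (2 * d) w)) :=
        pr_mono _ fun ω h => by
          rcases Pev_cases (N := N) (by exact_mod_cast hd) (by omega) h with h6 | h6
          · left
            exact h6
          · exact Or.inr h6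
    _ ≤ pr (BR v w) E + pr (BR v w) (Bad v d N ∩ Xev v (2 * d) w) := pr_union_le _ _ _
    _ ≤ _ := add_le_add h4 h5

theorem pi_bound (hU : UpperHyp) (hT : TailHyp) : ∃ C : ℝ, 0 < C ∧
    ∀ (v : ℤ × ℤ) (d w : ℕ), 1 ≤ d → d ≤ w →
      pr (BR v w) (Pev v d w) ≤ C * ((d : ℝ) / w) ^ (1 / 4 : ℝ) := by
  obtain ⟨x, hx, hlow⟩ := lt_bound hU hT (η := 1 / 4) (by norm_num)
  obtain ⟨C, hC0, hC⟩ := hU
  set K : ℝ := 4 + 200 * C / x with hK
  have hK0 : 0 < K := by rw [hK]; positivity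
  refine ⟨K, hK0, fun v d w hd hdw => ?_⟩
  have key : ∀ n d : ℕ, 1 ≤ d → d ≤ w → w ≤ d + n →
      pr (BR v w) (Pev v d w) ≤ K * ((d : ℝ) / w) ^ (1 / 4 : ℝ) := by
    intro n
    induction n using Nat.strong_induction_on with
    | _ n ih =>
      intro d hd hdw hn
      have hd0 : (0 : ℝ) < d := by exact_mod_cast hd
      have hw0 : (0 : ℝ) < w := by
        have : 0 < w := by omega
        exact_mod_cast this
      by_cases h4 : 4 * d ≤ w
      · have h5 := Pev_step hC0 hC hx hd h4 (hlow v d hd)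
        have h6 := ih (w - 2 * d) (by omega) (2 * d) (by omega) (by omega) (by omega)
        push_cast at h6
        have h7 : (2 * (d : ℝ) / w) ^ (1 / 4 : ℝ) ≤ 2 * ((d : ℝ) / w) ^ (1 / 4 : ℝ) := by
          rw [mul_div_assoc, Real.mul_rpow (by norm_num) (by positivity)]
          refine mul_le_mul_of_nonneg_right ?_ (by positivity)
          calc (2 : ℝ) ^ (1 / 4 : ℝ) ≤ (2 : ℝ) ^ (1 : ℝ) :=
                Real.rpow_le_rpow_of_exponent_le (by norm_num) (by norm_num)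
            _ = 2 := Real.rpow_one 2
        have h8 : pr (BR v w) (Pev v (2 * (d : ℤ)) w) ≤ K * (2 * ((d : ℝ) / w) ^ (1 / 4 : ℝ)) :=
          h6.trans (mul_le_mul_of_nonneg_left h7 hK0.le)
        set y : ℝ := ((d : ℝ) / w) ^ (1 / 4 : ℝ) with hy
        have hy0 : 0 < y := by rw [hy]; positivity
        have h9 : 100 * C / x = (K - 4) / 2 := by rw [hK]; ring
        rw [h9] at h5
        linarith
      · push Not at h4
        refine (pr_le_one _ _).trans ?_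
        have h5 : (1 / 4 : ℝ) ≤ (d : ℝ) / w := by
          rw [le_div_iff₀ hw0]
          have : (w : ℝ) < 4 * d := by exact_mod_cast h4
          linarith
        have h6 : (1 / 4 : ℝ) ≤ ((d : ℝ) / w) ^ (1 / 4 : ℝ) := by
          calc (1 / 4 : ℝ) = (1 / 4 : ℝ) ^ (1 : ℝ) := (Real.rpow_one _).symm
            _ ≤ (1 / 4 : ℝ) ^ (1 / 4 : ℝ) :=
              Real.rpow_le_rpow_of_exponent_ge (by norm_num) (by norm_num) (by norm_num)
            _ ≤ _ := Real.rpow_le_rpow (by norm_num) h5 (by norm_num)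
        have h7 : (4 : ℝ) ≤ K := by
          rw [hK]
          have : 0 < 200 * C / x := by positivity
          linarith
        nlinarith
  exact key w d hd hdw (by omega)

theorem xi_bound (hU : UpperHyp) (hT : TailHyp) : ∃ C : ℝ, 0 < C ∧
    ∀ (v : ℤ × ℤ) (d w : ℕ), 1 ≤ d → d ≤ w →
      pr (BR v w \ BR v d) (Xev v d w) ≤ C * ((d : ℝ) / w) ^ (1 / 4 : ℝ) := by
  obtain ⟨C, hC, h⟩ := pi_bound hU hT
  refine ⟨C, hC, fun v d w hd hdw => le_trans ?_ (h v d w hd hdw)⟩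
  rw [← pr_eq_of_depOn (depOn_Xev v d w) (S' := BR v w) sdiff_subset]
  exact pr_mono _ fun ω h => Xev_sub_Pev (by omega) h

end Pool.Agent.PercD
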