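import Pool.Agent.Lib.MP_6bd702_percd.BoxA
import Pool.Agent.Lib.MP_6bd702_percd.PI

/-!
# Target B1
-/

set_option autoImplicit false

namespace Pool.Agent.PercD

open Finset Pool.Agent.Perc
open Pool.Agent.MP_6bd702.H23 (Ed)
open Pool.Agent.PercU (Cor vtx fce)
open Pool.Agent.PercO (Orb sd Kc Oc mem_Oc)
open Pool.Agent.PercX60 (gV gF gB gT phiF dB TA Sn)
open Pool.Agent.PercW (kap ua_kap joins_kap)

variable {n : ℕ} {v x : ℤ × ℤ} {ω : Cfg}

/-- From an event of the box model to an event of a ball of the face grid. -/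
theorem prB_le_pr {S : Finset (ℤ × ℤ)} {A : Set (Finset Edg)} {E : Set Cfg} (hE : DepOn S E)
    (hsub : S ⊆ Sn n) (h : ∀ ω, cfgE n ω ∈ A → ω ∈ E) : prB n A ≤ pr S E := by
  rw [← PercX60.pr_Sn, ← pr_eq_of_depOn hE hsub]
  exact pr_mono _ fun ω hω => h ω hω

/-- The ball around a vertex. -/
theorem BR_phiV_sub {R : ℤ} (hR : R + 1 ≤ dB n v) : BR (phiV v) R ⊆ Sn n := by
  have h := BR_kap_sub (n := n) (k := (v.1, v.2, true, true)) (R := R) hR
  have h2 : ua (kap (v.1, v.2, true, true)) = phiV v := by simp [kap, ua, phiV]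
  rwa [h2] at h

theorem le_dB {r : ℤ} (h1 : r ≤ v.1) (h2 : v.1 ≤ n - r) (h3 : r ≤ v.2) (h4 : v.2 ≤ n - r) :
    r ≤ dB n v := by
  unfold dB
  omega

theorem abs_int_le {a b : ℤ} {d : ℝ} (h : |(a : ℝ) - b| ≤ d) : |a - b| ≤ (⌊d⌋₊ : ℤ) := by
  have h1 : ((|a - b| : ℤ) : ℝ) ≤ d := by
    push_cast
    exact h
  have h2 : |a - b| ≤ ⌊d⌋ := Int.le_floor.2 h1
  have h3 : (0 : ℝ) ≤ d := (abs_nonneg _).trans h
  rwa [Int.natCast_floor_eq_floor h3]

theorem targetB1 (hU : UpperHyp) (hT : TailHyp) : TargetB1 := by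
  intro k₀ hk₀
  obtain ⟨C, hC, hpi⟩ := pi_bound hU hT
  refine ⟨2 * C + 2, ?_⟩
  intro n hn v d w hd hdw hwk hv
  have hd0 : 0 < d := by linarith
  have hw0 : 0 < w := by linarith
  have hy0 : 0 < (d / w) ^ (1 / 4 : ℝ) := by positivity
  obtain ⟨hv1, hv2, hv3, hv4⟩ := hv
  by_cases hbig : 10 * d ≤ w
  · set a : ℕ := ⌊d⌋₊ with ha
    set b : ℕ := ⌊w⌋₊ with hb
    have ha1 : (a : ℝ) ≤ d := Nat.floor_le hd0.le
    have hb1 : (b : ℝ) ≤ w := Nat.floor_le hw0.le
    have hb2 : w < (b : ℝ) + 1 := Nat.lt_floor_add_one _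
    have ha2 : 1 ≤ a := Nat.le_floor (by exact_mod_cast hd)
    have ha3 : (1 : ℝ) ≤ a := by exact_mod_cast ha2
    have hab : 2 * a + 1 + (2 * a + 2) ≤ b := by
      have : ((2 * a + 1 + (2 * a + 2) : ℕ) : ℝ) ≤ (b : ℝ) := by
        push_cast
        linarith
      exact_mod_cast this
    obtain ⟨w', hw'⟩ : ∃ w' : ℕ, b = w' + (2 * a + 2) := ⟨b - (2 * a + 2), by omega⟩
    have hbr : (b : ℝ) = w' + (2 * a + 2) := by exact_mod_cast hw'
    have hdw' : 2 * a + 1 ≤ w' := by omega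
    have hkey := hpi (phiV v) (2 * a + 1) w' (by omega) hdw'
    have hw'0 : (0 : ℝ) < w' := by
      have : 0 < w' := by omega
      exact_mod_cast this
    have hnum : (((2 * a + 1 : ℕ) : ℝ) / w') ^ (1 / 4 : ℝ) ≤ 2 * (d / w) ^ (1 / 4 : ℝ) := by
      have h1 : ((2 * a + 1 : ℕ) : ℝ) / w' ≤ 16 * (d / w) := by
        rw [← mul_div_assoc, div_le_div_iff₀ hw'0 hw0]
        push_cast
        have h2 : w / 2 ≤ (w' : ℝ) := by linarith
        have h3 : (2 * (a : ℝ) + 1) ≤ 3 * d := by linarith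
        calc (2 * (a : ℝ) + 1) * w ≤ 3 * d * w := mul_le_mul_of_nonneg_right h3 hw0.le
          _ ≤ 16 * d * (w / 2) := by nlinarith
          _ ≤ 16 * d * w' := mul_le_mul_of_nonneg_left h2 (by positivity)
      have h4 : (16 : ℝ) ^ (1 / 4 : ℝ) = 2 := by
        rw [show (16 : ℝ) = 2 ^ (4 : ℝ) by norm_num, ← Real.rpow_mul (by norm_num)]
        norm_num
      calc _ ≤ (16 * (d / w)) ^ (1 / 4 : ℝ) :=
            Real.rpow_le_rpow (by positivity) h1 (by norm_num)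
        _ = 2 * (d / w) ^ (1 / 4 : ℝ) := by
            rw [Real.mul_rpow (by norm_num) (by positivity), h4]
    have hdBv : ((b : ℤ) : ℤ) ≤ dB n v := by
      refine le_dB ?_ ?_ ?_ ?_
      · have : ((b : ℤ) : ℝ) ≤ (v.1 : ℝ) := by push_cast; linarith
        exact_mod_cast this
      · have : (v.1 : ℝ) ≤ (((n : ℤ) - b : ℤ) : ℝ) := by push_cast; linarith
        exact_mod_cast this
      · have : ((b : ℤ) : ℝ) ≤ (v.2 : ℝ) := by push_cast; linarith
        exact_mod_cast this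
      · have : (v.2 : ℝ) ≤ (((n : ℤ) - b : ℤ) : ℝ) := by push_cast; linarith
        exact_mod_cast this
    have hmain : prB n {T | ∃ u, k₀ * n ≤ Metric.diam (clS T u) ∧
        ∃ x ∈ OutV T u, |(x.1 : ℝ) - v.1| ≤ d ∧ |(x.2 : ℝ) - v.2| ≤ d} ≤
        pr (BR (phiV v) w') (Pev (phiV v) ((2 * a + 1 : ℕ) : ℤ) w') := by
      refine prB_le_pr (depOn_Pev _ _ _) (BR_phiV_sub (by omega)) ?_
      rintro ω ⟨u, hD, x, hx, hx1, hx2⟩
      obtain ⟨k, hk, rfl⟩ := exists_cor hx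
      have h1 := abs_int_le hx1
      have h2 := abs_int_le hx2
      rw [← ha] at h1 h2
      have hin : InE (phiV v) ((2 * a + 1 : ℕ) : ℤ) (kap k) :=
        kap_inE k h1 h2 (by push_cast; omega)
      have hx1' := abs_le.1 hx1
      have hx2' := abs_le.1 hx2
      have hdB : ((b : ℤ) : ℤ) ≤ dB n (vtx k) := by
        refine le_dB ?_ ?_ ?_ ?_
        · have : ((b : ℤ) : ℝ) ≤ ((vtx k).1 : ℝ) := by push_cast; linarith [hx1'.1]
          exact_mod_cast this
        · have : ((vtx k).1 : ℝ) ≤ (((n : ℤ) - b : ℤ) : ℝ) := by push_cast; linarith [hx1'.2]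
          exact_mod_cast this
        · have : ((b : ℤ) : ℝ) ≤ ((vtx k).2 : ℝ) := by push_cast; linarith [hx2'.1]
          exact_mod_cast this
        · have : ((vtx k).2 : ℝ) ≤ (((n : ℤ) - b : ℤ) : ℝ) := by push_cast; linarith [hx2'.2]
          exact_mod_cast this
      have hR := Rch_of_outer (R := (b : ℤ) - 1) hk hD (by omega) (by omega) (by
        push_cast
        linarith)
      refine ⟨kap k, hin, ?_⟩
      refine Rch_sub ?_ ((Sub.refl' (by exact_mod_cast hdw')).inE hin) hR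
      have h3 := hin.1
      unfold InR at h3
      unfold Sub
      push_cast at h3
      omega
    refine hmain.trans (hkey.trans ?_)
    calc C * (((2 * a + 1 : ℕ) : ℝ) / w') ^ (1 / 4 : ℝ) ≤ C * (2 * (d / w) ^ (1 / 4 : ℝ)) :=
          mul_le_mul_of_nonneg_left hnum hC.le
      _ ≤ (2 * C + 2) * (d / w) ^ (1 / 4 : ℝ) := by nlinarith
  · refine (PercX60.prB_le_one _ _).trans ?_
    push Not at hbig
    have h1 : (1 / 16 : ℝ) ≤ d / w := by
      rw [le_div_iff₀ hw0]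
      linarith
    have h2 : (1 / 2 : ℝ) ≤ (d / w) ^ (1 / 4 : ℝ) := by
      have h3 : (1 / 16 : ℝ) ^ (1 / 4 : ℝ) = 1 / 2 := by
        rw [show (1 / 16 : ℝ) = (1 / 2) ^ (4 : ℝ) by norm_num, ← Real.rpow_mul (by norm_num)]
        norm_num
      rw [← h3]
      exact Real.rpow_le_rpow (by norm_num) h1 (by norm_num)
    nlinarith

end Pool.Agent.PercD
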