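import Pool.Agent.Lib.MP_6bd702_percd.LT
import Pool.Agent.Lib.MP_6bd702_percw.Trans
import Pool.Agent.Lib.MP_6bd702_percD.Topo
import Pool.Agent.Lib.MP_6bd702_percD.Targets

/-!
# From the face grid to the box: outer vertices and components
-/

set_option autoImplicit false

namespace Pool.Agent.PercD

open Finset Pool.Agent.Perc
open Pool.Agent.MP_6bd702.H23 (Ed)
open Pool.Agent.PercU (Cor vtx fce)
open Pool.Agent.PercO (Orb sd Kc Oc mem_Oc)
open Pool.Agent.PercX60 (gV gF gB gT phiF dB TA Sn)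
open Pool.Agent.PercW (kap ua_kap joins_kap)

variable {n : ℕ} {T : Finset Edg} {u x : ℤ × ℤ} {k : Cor} {ω : Cfg}

/-- An outer vertex is the vertex of an outer corner. -/
theorem exists_cor (hx : x ∈ OutV T u) : ∃ k ∈ Oc (T : Set Ed) u, vtx k = x := by
  obtain ⟨e, he, hcl, ⟨b, hb⟩, hv⟩ := hx
  have h2 : hd e ∈ clV T u := Relation.ReflTransGen.tail hcl ⟨e, he, Or.inl ⟨rfl, rfl⟩⟩
  obtain ⟨a, c, t⟩ := e
  rcases hv with rfl | rfl
  · cases t <;> cases b
    · exact ⟨(a, c, true, false), mem_Oc.2 ⟨hcl, by simpa [fce, side, tl] using hb⟩, rfl⟩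
    · exact ⟨(a, c, true, true), mem_Oc.2 ⟨hcl, by simpa [fce, side, tl] using hb⟩, rfl⟩
    · exact ⟨(a, c, false, true), mem_Oc.2 ⟨hcl, by simpa [fce, side, tl] using hb⟩, rfl⟩
    · exact ⟨(a, c, true, true), mem_Oc.2 ⟨hcl, by simpa [fce, side, tl] using hb⟩, rfl⟩
  · cases t <;> cases b
    · exact ⟨(a + 1, c, false, false), mem_Oc.2 ⟨by simpa [vtx, hd] using h2,
        by simpa [fce, side, tl] using hb⟩, rfl⟩
    · exact ⟨(a + 1, c, false, true), mem_Oc.2 ⟨by simpa [vtx, hd] using h2,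
        by simpa [fce, side, tl] using hb⟩, rfl⟩
    · exact ⟨(a, c + 1, false, false), mem_Oc.2 ⟨by simpa [vtx, hd] using h2,
        by simpa [fce, side, tl] using hb⟩, rfl⟩
    · exact ⟨(a, c + 1, true, false), mem_Oc.2 ⟨by simpa [vtx, hd] using h2,
        by simpa [fce, side, tl] using hb⟩, rfl⟩

/-- The vertex of an outer corner of a cluster with an edge is an outer vertex. -/
theorem outV_of_cor (hd0 : 0 < Metric.diam (clS T u)) (hk : k ∈ Oc (T : Set Ed) u) :
    vtx k ∈ OutV T u := by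
  obtain ⟨h1, h2⟩ := mem_Oc.1 hk
  have hne : ∃ e ∈ T, tl e = vtx k ∨ hd e = vtx k := by
    by_contra hcon
    push Not at hcon
    -- the cluster is one vertex
    have hcl : ∀ w ∈ clV T u, w = vtx k := by
      have hsym : ∀ w, Relation.ReflTransGen (AdjT T) (vtx k) w → w = vtx k := by
        intro w hw
        induction hw with
        | refl => rfl
        | tail _ hs ih =>
          obtain ⟨e, he, h | h⟩ := hs
          · exact absurd (h.1.trans ih) (hcon e he).1
          · exact absurd (h.2.trans ih) (hcon e he).2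
      intro w hw
      refine hsym w ?_
      have h3 : clV T (vtx k) = clV T u := BoxAux.clV_eq h1
      change w ∈ clV T (vtx k)
      rw [h3]
      exact hw
    have hsub : clS T u ⊆ {toC (vtx k)} := by
      intro z hz
      rcases hz with ⟨w, hw, rfl⟩ | hz
      · rw [hcl w hw]
        rfl
      · simp only [Set.mem_iUnion] at hz
        obtain ⟨e, he, hcle, -⟩ := hz
        exact absurd (hcl _ hcle) (hcon e he).1
    have h4 : Metric.diam (clS T u) ≤ 0 := by
      refine le_trans (Metric.diam_mono hsub Bornology.isBounded_singleton) ?_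
      rw [Metric.diam_singleton]
    linarith
  have hf1 : (fce k).1 = (vtx k).1 ∨ (fce k).1 = (vtx k).1 - 1 := by
    obtain ⟨x, y, _ | _, _ | _⟩ := k <;> simp [fce, vtx]
  have hf2 : (fce k).2 = (vtx k).2 ∨ (fce k).2 = (vtx k).2 - 1 := by
    obtain ⟨x, y, _ | _, _ | _⟩ := k <;> simp [fce, vtx]
  obtain ⟨e, he, b, hv, ho⟩ := Pool.Agent.Perc.PercD.exists_side' h1 h2 hf1 hf2 hne
  refine ⟨e, he, ?_, ⟨b, ho⟩, hv.imp Eq.symm Eq.symm⟩
  rcases hv with h | h
  · rw [h]; exact h1
  · exact (BoxAux.tl_mem_iff he).2 (by rw [h]; exact h1)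

/-- The unit edge of a corner. -/
theorem kap_inE (k : Cor) {v : ℤ × ℤ} {d r : ℤ} (h1 : |(vtx k).1 - v.1| ≤ d)
    (h2 : |(vtx k).2 - v.2| ≤ d) (hr : 2 * d + 1 ≤ r) : InE (phiV v) r (kap k) := by
  rw [abs_le] at h1 h2
  obtain ⟨x, y, _ | _, _ | _⟩ := k <;>
    simp [InE, InR, kap, ua, ub, phiV, vtx] at * <;> omega

theorem BR_kap_sub {R : ℤ} (hR : R + 1 ≤ dB n (vtx k)) : BR (ua (kap k)) R ⊆ Sn n := by
  rw [ua_kap]
  exact PercX60.ball_sub_Sn hR

/-- Outer corners of large clusters have long components. -/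
theorem Rch_of_outer {R : ℤ} {D : ℝ} (hk : k ∈ Oc (cfgE n ω : Set Ed) u)
    (hD : D ≤ Metric.diam (clS (cfgE n ω) u)) (hR : R + 1 ≤ dB n (vtx k)) (hR1 : 1 ≤ R)
    (hRD : 4 * ((R : ℝ) + 2) ≤ D) : ω ∈ Rch (ua (kap k)) R (kap k) := by
  have h := PercX60.TA_of_outer hk hD hR hR1 hRD
  obtain ⟨h1, h2⟩ := h
  have hj := joins_kap k
  have hself := LTail.inE_self (kap k) hR1
  rw [← ua_kap] at h1 h2
  rcases hj with ⟨h3, h4⟩ | ⟨h3, h4⟩
  · exact exists_tip (Or.inl ⟨h3, h4⟩) (by rw [h3]; exact hself.1) (by rw [h4]; exact hself.2)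
      (by omega) (by omega) h1 h2
  · exact exists_tip (Or.inr ⟨h3, h4⟩) (by rw [h3]; exact hself.2) (by rw [h4]; exact hself.1)
      (by omega) (by omega) h1 h2

/-- The component of the unit edge of a corner consists of unit edges of corners of the orbit. -/
theorem mem_orb_of_MM {R : ℤ} {a : UE} (hR : R + 1 ≤ dB n (vtx k))
    (ha : a ∈ MM ω (BR (ua (kap k)) R) (kap k)) : a ∈ kap '' Orb (cfgE n ω : Set Ed) k := by
  have hag : ∀ f ∈ (BR (ua (kap k)) R : Set (ℤ × ℤ)), ω f = gT (cfgE n ω : Set Ed) f := by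
    intro f hf
    rw [ua_kap] at hf
    have h1 := PercX60.gT_cfgE (ω := ω) (PercX60.ball_sub hR (Finset.mem_coe.1 hf))
    rw [PercX60.phiE_eE] at h1
    exact h1.symm
  rw [← MM_congr' (ω := ω) hag] at ha
  exact PercW.MM_sub_orb ha

/-- Every unit edge is the unit edge of a corner. -/
theorem kap_surjective : Function.Surjective kap := by
  rintro ⟨a, b, t⟩
  rcases Int.even_or_odd' (a + b) with ⟨m, hm | hm⟩
  · cases t
    · exact ⟨(m, a - m, true, true), by simp [kap]; omega⟩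
    · exact ⟨(m, a - m, true, false), by simp [kap]; omega⟩
  · cases t
    · exact ⟨(m + 1, a - m, false, false), by simp [kap]; omega⟩
    · exact ⟨(m + 1, a - m - 1, false, true), by simp [kap]; omega⟩

/-- The upper bound for all unit edges. -/
theorem upperHyp_of_p2 {C : ℝ} (h : ∀ R : ℕ, 1 ≤ R → p2 R ≤ C * (R : ℝ) ^ (-(1 / 4 : ℝ))) :
    UpperHyp := by
  refine ⟨max C 1, by positivity, fun e r hr => ?_⟩
  obtain ⟨k, rfl⟩ := kap_surjective e
  have h1 : pr (BR (ua (kap k)) r) (TA r k) = p2 r := by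
    refine PercX60.pr_TA k ?_
    rw [ua_kap]
    exact subset_rfl
  have h2 : pr (BR (ua (kap k)) r) (Rch (ua (kap k)) r (kap k)) ≤ p2 r := by
    rw [← h1]
    refine pr_mono _ ?_
    rintro ω ⟨a, ha, hb⟩
    have hj := joins_kap k
    unfold TA
    rw [Set.mem_ofPred_eq, ← ua_kap]
    exact ⟨toBd_of_tip hj ha hb (by omega) (by omega),
      toBd_of_tip hj.symm ha hb (by omega) (by omega)⟩
  refine h2.trans ((h r hr).trans (mul_le_mul_of_nonneg_right (le_max_left _ _) ?_))
  positivity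

end Pool.Agent.PercD
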